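import Mathlib

set_option autoImplicit false

/-!
# Compact absolute retracts, the property `HDD` and `Z_n`-points
-/

namespace Pool.Agent.H72.Zp

open Set Topology TopologicalSpace unitInterval

universe u

/-- The cube `I^n`. -/
abbrev Cube (n : ℕ) := Fin n → unitInterval

/-- `U` is an open cover of `X`. -/
def OpenCover {X : Type*} [TopologicalSpace X] (U : Set (Set X)) : Prop :=
  (∀ u ∈ U, IsOpen u) ∧ ⋃₀ U = univ

/-- `f` and `g` are `U`-near. -/
def UNear {K X : Type*} (U : Set (Set X)) (f g : K → X) : Prop :=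
  ∀ z, ∃ u ∈ U, f z ∈ u ∧ g z ∈ u

/-- `f` and `g` are `U`-homotopic. -/
def UHomotopic {K X : Type*} [TopologicalSpace K] [TopologicalSpace X] (U : Set (Set X))
    (f g : C(K, X)) : Prop :=
  ∃ h : C(K × unitInterval, X), (∀ z, h (z, 0) = f z) ∧ (∀ z, h (z, 1) = g z) ∧
    ∀ z, ∃ u ∈ U, ∀ t, h (z, t) ∈ u

/-- The property `HDD^∞_{0,0}`. -/
def HDD00 (X : Type*) [TopologicalSpace X] : Prop :=
  ∀ (m : ℕ) (U : Set (Set X)), OpenCover U → ∀ f g : C(Cube m, X),
    ∃ f' g' : C(Cube m, X), UHomotopic U f f' ∧ UHomotopic U g g' ∧ ∀ z, f' z ≠ g' z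

/-- `x` is a `Z_n`-point. -/
def IsZPoint (n : ℕ) {X : Type*} [TopologicalSpace X] (x : X) : Prop :=
  ∀ U : Set (Set X), OpenCover U → ∀ f : C(Cube n, X), ∃ g : C(Cube n, X),
    UNear U f g ∧ ∀ z, g z ≠ x

/-- Compact (metrizable) absolute retracts. -/
structure CompactAR (X : Type u) [TopologicalSpace X] : Prop where
  compact : CompactSpace X
  metrizable : MetrizableSpace X
  retract : ∀ (Y : Type u) [TopologicalSpace Y] [MetrizableSpace Y] (i : X → Y),
    IsClosedEmbedding i → ∃ r : C(Y, X), ∀ x, r (i x) = x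

end Pool.Agent.H72.Zp
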