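import Mathlib
import Pool.Agent.H72.Zp.Defs

set_option autoImplicit false

/-!
# Extension of small perturbations into a compact absolute retract
-/

namespace Pool.Agent.H72.Zp

open Set Topology TopologicalSpace unitInterval Filter

universe u

/-- The Kuratowski-Fréchet embedding given by a dense sequence. -/
noncomputable def kf {X : Type*} [MetricSpace X] (d : ℕ → X) (x : X) : ℕ → ℝ :=
  fun n => dist x (d n)

theorem kf_continuous {X : Type*} [MetricSpace X] (d : ℕ → X) : Continuous (kf d) :=
  continuous_pi fun _ => continuous_id.dist continuous_const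

theorem kf_injective {X : Type*} [MetricSpace X] {d : ℕ → X} (hd : DenseRange d) :
    Function.Injective (kf d) := by
  intro x y hxy
  by_contra hne
  have hpos : 0 < dist x y := dist_pos.2 hne
  obtain ⟨n, hn⟩ := hd.exists_dist_lt x (half_pos hpos)
  have h1 : dist x (d n) = dist y (d n) := congrFun hxy n
  have h2 := dist_triangle_right x y (d n)
  rw [← h1] at h2
  linarith

/-- The data of a retraction of the space of real sequences onto a compact absolute retract. -/
theorem exists_retraction {X : Type u} [MetricSpace X] [CompactSpace X] [Nonempty X]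
    (hX : CompactAR X) : ∃ (d : ℕ → X) (r : C(ℕ → ℝ, X)), ∀ x, r (kf d x) = x := by
  obtain ⟨d, hd⟩ := TopologicalSpace.exists_dense_seq X
  have he : IsClosedEmbedding (fun x : X => ULift.up.{u} (kf d x)) := by
    refine Continuous.isClosedEmbedding ?_ ?_
    · exact continuous_uliftUp.comp (kf_continuous d)
    · intro x y hxy
      exact kf_injective hd (ULift.up_injective hxy)
  have hm : MetrizableSpace (ULift.{u} (ℕ → ℝ)) :=
    Homeomorph.ulift.isEmbedding.metrizableSpace
  obtain ⟨r, hr⟩ := hX.retract (ULift.{u} (ℕ → ℝ)) _ he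
  exact ⟨d, r.comp ⟨ULift.up, continuous_uliftUp⟩, hr⟩

theorem locallyPathConnected {X : Type u} [TopologicalSpace X] (hX : CompactAR X) :
    LocallyPathConnectedSpace X := by
  have := hX.compact
  have := hX.metrizable
  rcases isEmpty_or_nonempty X with he | he
  · exact ⟨fun x => (he.false x).elim⟩
  letI := TopologicalSpace.metrizableSpaceMetric X
  obtain ⟨d, r, hr⟩ := exists_retraction hX
  have hq : IsQuotientMap r := by
    refine IsQuotientMap.of_comp (kf_continuous d) r.continuous ?_
    have : (r ∘ kf d) = id := funext hr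
    rw [this]
    exact IsQuotientMap.id
  exact hq.locallyPathConnectedSpace

/-- Uniform continuity of the retraction near the image of `X`. -/
theorem retraction_unif {X : Type u} [MetricSpace X] [CompactSpace X] {d : ℕ → X}
    {r : C(ℕ → ℝ, X)} (hr : ∀ x, r (kf d x) = x) {ε : ℝ} (hε : 0 < ε) :
    ∃ δ > 0, ∀ (x : X) (y : ℕ → ℝ), (∀ n, |y n - kf d x n| ≤ δ) → dist (r y) x < ε := by
  by_contra hcon
  push Not at hcon
  have h1 : ∀ k : ℕ, ∃ (x : X) (y : ℕ → ℝ), (∀ n, |y n - kf d x n| ≤ 1 / ((k : ℝ) + 1)) ∧
      ε ≤ dist (r y) x := fun k => hcon _ (by positivity)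
  choose x y hy hd using h1
  obtain ⟨x0, φ, hφ, hx0⟩ := CompactSpace.tendsto_subseq x
  have hy0 : Tendsto (fun k => y (φ k)) atTop (𝓝 (kf d x0)) := by
    rw [tendsto_pi_nhds]
    intro n
    have h2 : Tendsto (fun k => kf d (x (φ k)) n) atTop (𝓝 (kf d x0 n)) :=
      ((continuous_apply n).comp (kf_continuous d)).continuousAt.tendsto.comp hx0
    have h3 : Tendsto (fun k => y (φ k) n - kf d (x (φ k)) n) atTop (𝓝 0) := by
      have h4 : Tendsto (fun k : ℕ => 1 / ((φ k : ℝ) + 1)) atTop (𝓝 0) :=
        tendsto_one_div_add_atTop_nhds_zero_nat.comp hφ.tendsto_atTop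
      exact squeeze_zero_norm (fun k => by rw [Real.norm_eq_abs]; exact hy (φ k) n) h4
    have h5 := h3.add h2
    simpa using h5
  have h6 : Tendsto (fun k => dist (r (y (φ k))) (x (φ k))) atTop (𝓝 (dist (r (kf d x0)) x0)) :=
    ((r.continuous.tendsto _).comp hy0).dist hx0
  rw [hr, dist_self] at h6
  have h7 := ge_of_tendsto' h6 (fun k => hd (φ k))
  linarith

/-- Small perturbations on a closed subset extend. -/
theorem perturbation_extension {X : Type u} [MetricSpace X] [CompactSpace X] [Nonempty X]
    (hX : CompactAR X) {ε : ℝ} (hε : 0 < ε) :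
    ∃ δ > 0, ∀ {K T : Type} [TopologicalSpace K] [NormalSpace K] [TopologicalSpace T]
      (ι : T → K), IsClosedEmbedding ι → ∀ (f : C(K, X)) (f1 : C(T, X)),
      (∀ t, dist (f1 t) (f (ι t)) ≤ δ) →
      ∃ g : C(K, X), (∀ t, g (ι t) = f1 t) ∧ ∀ z, dist (g z) (f z) < ε := by
  obtain ⟨d, r, hr⟩ := exists_retraction hX
  obtain ⟨δ, hδ, hδr⟩ := retraction_unif hr hε
  refine ⟨δ, hδ, ?_⟩
  intro K T _ _ _ ι hι f f1 hf1
  have h1 : ∀ n : ℕ, ∃ H : C(K, ℝ), (∀ z, H z ∈ Icc (-δ) δ) ∧
      H ∘ ι = fun t => kf d (f1 t) n - kf d (f (ι t)) n := by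
    intro n
    have hc : Continuous fun t => kf d (f1 t) n - kf d (f (ι t)) n := by
      unfold kf
      exact ((f1.continuous).dist continuous_const).sub
        ((f.continuous.comp hι.continuous).dist continuous_const)
    obtain ⟨H, h2, h3⟩ := ContinuousMap.exists_extension_forall_mem_of_isClosedEmbedding
      (⟨_, hc⟩ : C(T, ℝ)) (t := Icc (-δ) δ) (e := ι) (by
        intro t
        simp only [ContinuousMap.coe_mk, mem_Icc, ← abs_le]
        unfold kf
        exact (abs_dist_sub_le _ _ _).trans (hf1 t)) ⟨0, by constructor <;> linarith⟩ hι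
    exact ⟨H, h2, h3⟩
  choose H hH1 hH2 using h1
  have hc : Continuous fun z => r (fun n => kf d (f z) n + H n z) := by
    refine r.continuous.comp (continuous_pi fun n => ?_)
    unfold kf
    exact (f.continuous.dist continuous_const).add (H n).continuous
  refine ⟨⟨_, hc⟩, fun t => ?_, fun z => ?_⟩
  · simp only [ContinuousMap.coe_mk]
    have : (fun n => kf d (f (ι t)) n + H n (ι t)) = kf d (f1 t) := by
      funext n
      have h2 := congrFun (hH2 n) t
      simp only [Function.comp_apply] at h2
      rw [h2]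
      ring
    rw [this, hr]
  · apply hδr
    intro n
    rw [add_sub_cancel_left, abs_le]
    exact hH1 n z

end Pool.Agent.H72.Zp
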