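import Mathlib
import Pool.Agent.H72.Zp.Defs

set_option autoImplicit false

/-!
# Locally separating points
-/

namespace Pool.Agent.H72.Zp

open Set Topology TopologicalSpace unitInterval Filter

/-- `a` does not separate its small neighbourhoods. -/
def NonSep {A : Type*} [TopologicalSpace A] (a : A) : Prop :=
  ∀ U ∈ 𝓝 a, ∃ V ⊆ U, IsOpen V ∧ a ∈ V ∧ IsPathConnected (V \ {a})

/-- `a` separates some neighbourhood. -/
def Sep {A : Type*} [TopologicalSpace A] (a : A) : Prop :=
  ∃ (V : Set A) (l : A → ℝ) (γ : C(unitInterval, A)), IsOpen V ∧ ContinuousOn l V ∧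
    (∀ x ∈ V, l x = 0 → x = a) ∧ (∀ t, γ t ∈ V) ∧ l (γ 0) < 0 ∧ 0 < l (γ 1)

theorem nonSep_or_sep {A : Type*} [TopologicalSpace A] [LocallyPathConnectedSpace A] (a : A)
    (ha : ¬ IsOpen ({a} : Set A)) (δ : A → ℝ) (hδ : Continuous δ) (h0 : ∀ x, 0 ≤ δ x)
    (h1 : ∀ x, δ x = 0 ↔ x = a) : NonSep a ∨ Sep a := by
  classical
  by_contra hcon
  push Not at hcon
  obtain ⟨hN, hS⟩ := hcon
  apply hS
  unfold NonSep at hN
  push Not at hN
  obtain ⟨U, hU, hN⟩ := hN
  have hcl : IsClosed ({a} : Set A) := by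
    have : ({a} : Set A) = δ ⁻¹' {0} := by
      ext x
      simp [h1]
    rw [this]
    exact isClosed_singleton.preimage hδ
  set V := pathComponentIn (interior U) a with hV
  have haU : a ∈ interior U := mem_interior_iff_mem_nhds.2 hU
  have hVo : IsOpen V := isOpen_interior.pathComponentIn a
  have haV : a ∈ V := mem_pathComponentIn_self haU
  have hVU : V ⊆ U := (pathComponentIn_subset).trans interior_subset
  have hVp : IsPathConnected V := isPathConnected_pathComponentIn haU
  have hnp := hN V hVU hVo haV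
  have hVa : IsOpen (V \ {a}) := hVo.sdiff hcl
  have hne : (V \ {a}).Nonempty := by
    by_contra hemp
    rw [not_nonempty_iff_eq_empty, sdiff_eq_empty] at hemp
    apply ha
    rw [← Subset.antisymm hemp (singleton_subset_iff.2 haV)]
    exact hVo
  have hnc : ¬ IsPreconnected (V \ {a}) := fun h =>
    hnp (hVa.isConnected_iff_isPathConnected.1 ⟨hne, h⟩)
  unfold IsPreconnected at hnc
  push Not at hnc
  obtain ⟨u, v, hu, hv, huv, ⟨p, hp⟩, ⟨q, hq⟩, hpq⟩ := hnc
  set P := (V \ {a}) ∩ u with hP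
  set Q := (V \ {a}) ∩ v with hQ
  have hPo : IsOpen P := hVa.inter hu
  have hQo : IsOpen Q := hVa.inter hv
  have hdisj : ∀ x, x ∈ P → x ∉ Q := by
    intro x hx hx'
    have : x ∈ (V \ {a}) ∩ (u ∩ v) := ⟨hx.1, hx.2, hx'.2⟩
    rw [hpq] at this
    exact this
  set l : A → ℝ := fun x => if x ∈ P then -δ x else if x ∈ Q then δ x else 0 with hl
  have hlP : ∀ x ∈ P, l x = -δ x := fun x hx => if_pos hx
  have hlQ : ∀ x ∈ Q, l x = δ x := fun x hx => by
    simp only [hl]
    rw [if_neg (fun h => hdisj x h hx), if_pos hx]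
  have hla : l a = 0 := by
    simp only [hl]
    rw [if_neg (fun h => h.1.2 rfl), if_neg (fun h => h.1.2 rfl)]
  have hcov : ∀ x ∈ V, x = a ∨ x ∈ P ∨ x ∈ Q := by
    intro x hx
    by_cases hxa : x = a
    · exact Or.inl hxa
    · right
      rcases huv ⟨hx, hxa⟩ with h | h
      · exact Or.inl ⟨⟨hx, hxa⟩, h⟩
      · exact Or.inr ⟨⟨hx, hxa⟩, h⟩
  have hcont : ContinuousOn l V := by
    intro x hx
    apply ContinuousAt.continuousWithinAt
    rcases hcov x hx with h | h | h
    · subst h
      have hb : ∀ y, |l y| ≤ δ y := by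
        intro y
        simp only [hl]
        split_ifs
        · rw [abs_neg, abs_of_nonneg (h0 y)]
        · rw [abs_of_nonneg (h0 y)]
        · rw [abs_zero]; exact h0 y
      unfold ContinuousAt
      rw [hla]
      have h2 : Tendsto δ (𝓝 x) (𝓝 0) := by
        have := hδ.tendsto x
        rwa [(h1 x).2 rfl] at this
      exact squeeze_zero_norm (fun y => by rw [Real.norm_eq_abs]; exact hb y) h2
    · exact hδ.neg.continuousAt.congr
        (Filter.eventually_of_mem (hPo.mem_nhds h) fun y hy => (hlP y hy).symm)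
    · exact hδ.continuousAt.congr
        (Filter.eventually_of_mem (hQo.mem_nhds h) fun y hy => (hlQ y hy).symm)
  obtain ⟨γ, hγ⟩ := hVp.joinedIn p hp.1.1 q hq.1.1
  have hpos : ∀ x, x ≠ a → 0 < δ x := fun x hx =>
    lt_of_le_of_ne (h0 x) (fun h => hx ((h1 x).1 h.symm))
  refine ⟨V, l, γ.toContinuousMap, hVo, hcont, ?_, hγ, ?_, ?_⟩
  · intro x hx hlx
    by_contra hxa
    have h3 := hpos x hxa
    rcases hcov x hx with h | h | h
    · exact hxa h
    · rw [hlP x h] at hlx
      linarith
    · rw [hlQ x h] at hlx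
      linarith
  · have : γ.toContinuousMap 0 = p := γ.source
    rw [this, hlP p hp]
    have := hpos p hp.1.2
    linarith
  · have : γ.toContinuousMap 1 = q := γ.target
    rw [this, hlQ q hq]
    exact hpos q hq.1.2

end Pool.Agent.H72.Zp
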