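import Mathlib
import Pool.Agent.H72.Zp.Loc

set_option autoImplicit false

/-!
# Pushing a path off a point which does not separate
-/

namespace Pool.Agent.H72.Zp

open Set Topology TopologicalSpace unitInterval Filter

/-- Closeness relation. -/
def Clo {A : Type*} (V : Set A) (x y : A) : Prop := x = y ∨ (x ∈ V ∧ y ∈ V)

theorem push_path_real {A : Type*} [TopologicalSpace A] {a : A} {V : Set A} (hV : IsOpen V)
    (hVp : IsPathConnected (V \ {a})) (G : ℝ → A) (hG : Continuous G) {n : ℕ} (hn : 0 < n)
    (hpart : ∀ k : ℕ, (∀ t, (k : ℝ) / n ≤ t → t ≤ ((k : ℝ) + 1) / n → G t ∈ V) ∨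
      (∀ t, (k : ℝ) / n ≤ t → t ≤ ((k : ℝ) + 1) / n → G t ≠ a)) (k : ℕ) :
    ∃ g : ℝ → A, Continuous g ∧ ∀ t, 0 ≤ t → t ≤ (k : ℝ) / n → g t ≠ a ∧ Clo V (g t) (G t) := by
  have hn' : (0 : ℝ) < n := by exact_mod_cast hn
  induction k with
  | zero =>
    -- the value at `0`
    by_cases h0 : G 0 = a
    · have h1 : G 0 ∈ V := by
        rcases hpart 0 with h | h
        · exact h 0 (by simp) (by simp)
        · exact absurd h0 (h 0 (by simp) (by simp))
      obtain ⟨p, hp⟩ := hVp.nonempty
      refine ⟨fun _ => p, continuous_const, fun t ht0 ht1 => ⟨hp.2, Or.inr ⟨hp.1, ?_⟩⟩⟩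
      have : t = 0 := le_antisymm (by simpa using ht1) ht0
      rw [this]
      exact h1
    · refine ⟨G, hG, fun t ht0 ht1 => ⟨?_, Or.inl rfl⟩⟩
      have : t = 0 := le_antisymm (by simpa using ht1) ht0
      rw [this]
      exact h0
  | succ k ih =>
    obtain ⟨g, hg, hgt⟩ := ih
    set t0 : ℝ := (k : ℝ) / n with ht0
    set t1 : ℝ := ((k : ℝ) + 1) / n with ht1
    have h01 : t0 < t1 := by
      rw [ht0, ht1]
      apply div_lt_div_of_pos_right _ hn'
      linarith
    have h00 : 0 ≤ t0 := by positivity
    have hcast : (((k + 1 : ℕ) : ℝ)) / n = t1 := by rw [ht1]; push_cast; ring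
    rw [hcast]
    obtain ⟨hg0a, hg0c⟩ := hgt t0 h00 le_rfl
    rcases hpart k with hk | hk
    · -- the piece is contained in `V`: stop
      have hgV : g t0 ∈ V := by
        rcases hg0c with h | h
        · rw [h]; exact hk t0 le_rfl h01.le
        · exact h.1
      refine ⟨fun t => g (min t t0), hg.comp (continuous_id.min continuous_const), ?_⟩
      intro t htp ht
      by_cases h : t ≤ t0
      · simp only [min_eq_left h]
        exact hgt t htp h
      · push Not at h
        simp only [min_eq_right h.le]
        exact ⟨hg0a, Or.inr ⟨hgV, hk t h.le ht⟩⟩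
    · -- the piece misses `a`
      by_cases hG0 : G t0 ∈ V
      · -- `g t0` and `G t0` are both in `V \ {a}`
        have hgV : g t0 ∈ V := by
          rcases hg0c with h | h
          · rw [h]; exact hG0
          · exact h.1
        -- a short time during which `G` stays in `V`
        obtain ⟨s, hs0, hs1, hsV⟩ : ∃ s, t0 < s ∧ s ≤ t1 ∧ ∀ t, t0 ≤ t → t ≤ s → G t ∈ V := by
          have h2 : G ⁻¹' V ∈ 𝓝 t0 := (hV.preimage hG).mem_nhds hG0
          obtain ⟨ε, hε, hball⟩ := Metric.mem_nhds_iff.1 h2
          refine ⟨min t1 (t0 + ε / 2), lt_min h01 (by linarith), min_le_left _ _, ?_⟩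
          intro t h3 h4
          apply hball
          rw [Metric.mem_ball, Real.dist_eq, abs_lt]
          have h5 := h4.trans (min_le_right _ _)
          constructor <;> linarith
        have hgs : g t0 ∈ V \ {a} := ⟨hgV, hg0a⟩
        have hGs : G s ∈ V \ {a} := ⟨hsV s hs0.le le_rfl, hk s hs0.le hs1⟩
        obtain ⟨p, hp⟩ := hVp.joinedIn _ hgs _ hGs
        set q : ℝ → A := fun t => p.extend ((t - t0) / (s - t0)) with hq
        have hqc : Continuous q := by
          refine p.continuous_extend.comp ?_
          exact (continuous_id.sub continuous_const).div_const _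
        have hq0 : q t0 = g t0 := by simp [hq]
        have hqs : q s = G s := by
          simp only [hq]
          rw [div_self (by linarith), Path.extend_one]
        have hqV : ∀ t, q t ∈ V \ {a} := by
          intro t
          exact hp (projIcc 0 1 zero_le_one ((t - t0) / (s - t0)))
        refine ⟨fun t => if t ≤ t0 then g t else if t ≤ s then q t else G t, ?_, ?_⟩
        · refine Continuous.if_le hg ?_ continuous_id continuous_const ?_
          · refine Continuous.if_le hqc hG continuous_id continuous_const ?_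
            rintro t rfl
            exact hqs
          · rintro t rfl
            rw [if_pos hs0.le]
            exact hq0.symm
        · intro t htp ht
          simp only
          by_cases h : t ≤ t0
          · rw [if_pos h]
            exact hgt t htp h
          · rw [if_neg h]
            push Not at h
            by_cases h' : t ≤ s
            · rw [if_pos h']
              exact ⟨(hqV t).2, Or.inr ⟨(hqV t).1, hsV t h.le h'⟩⟩
            · rw [if_neg h']
              exact ⟨hk t h.le ht, Or.inl rfl⟩
      · -- `g t0 = G t0`: continue with `G`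
        have hgG : g t0 = G t0 := by
          rcases hg0c with h | h
          · exact h
          · exact absurd h.2 hG0
        refine ⟨fun t => if t ≤ t0 then g t else G t, ?_, ?_⟩
        · refine Continuous.if_le hg hG continuous_id continuous_const ?_
          rintro t rfl
          exact hgG
        · intro t htp ht
          simp only
          by_cases h : t ≤ t0
          · rw [if_pos h]
            exact hgt t htp h
          · rw [if_neg h]
            push Not at h
            exact ⟨hk t h.le ht, Or.inl rfl⟩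

theorem push_path {A : Type*} [TopologicalSpace A] {a : A} (hcl : IsClosed ({a} : Set A))
    {V : Set A} (hV : IsOpen V) (haV : a ∈ V) (hVp : IsPathConnected (V \ {a}))
    (γ : C(unitInterval, A)) :
    ∃ γ' : C(unitInterval, A), ∀ t, γ' t ≠ a ∧ Clo V (γ' t) (γ t) := by
  -- Lebesgue number
  obtain ⟨ε, hε, hleb⟩ := lebesgue_number_lemma_of_metric (s := (univ : Set unitInterval))
    (c := fun b : Bool => if b then γ ⁻¹' V else γ ⁻¹' {a}ᶜ) isCompact_univ
    (by
      intro b
      cases b
      · simpa using hcl.isOpen_compl.preimage γ.continuous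
      · simpa using hV.preimage γ.continuous)
    (by
      intro t _
      rw [mem_iUnion]
      by_cases h : γ t = a
      · exact ⟨true, by simp [h, haV]⟩
      · exact ⟨false, by simpa using h⟩)
  obtain ⟨n, hn⟩ := exists_nat_one_div_lt hε
  have hn1 : 0 < n + 1 := Nat.succ_pos n
  have hn' : (0 : ℝ) < ((n + 1 : ℕ) : ℝ) := by positivity
  set G : ℝ → A := fun t => γ (projIcc 0 1 zero_le_one t) with hG
  have hGc : Continuous G := γ.continuous.comp continuous_projIcc
  obtain ⟨g, hg, hgt⟩ := push_path_real hV hVp G hGc hn1 (by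
    intro k
    obtain ⟨b, hb⟩ := hleb (projIcc 0 1 zero_le_one ((k : ℝ) / ((n + 1 : ℕ) : ℝ))) (mem_univ _)
    have hclose : ∀ t, (k : ℝ) / ((n + 1 : ℕ) : ℝ) ≤ t → t ≤ ((k : ℝ) + 1) / ((n + 1 : ℕ) : ℝ) →
        projIcc (0 : ℝ) 1 zero_le_one t ∈
          Metric.ball (projIcc (0 : ℝ) 1 zero_le_one ((k : ℝ) / ((n + 1 : ℕ) : ℝ))) ε := by
      intro t h1 h2
      rw [Metric.mem_ball]
      have h3 : dist (projIcc (0 : ℝ) 1 zero_le_one t)
          (projIcc (0 : ℝ) 1 zero_le_one ((k : ℝ) / ((n + 1 : ℕ) : ℝ))) ≤
          dist t ((k : ℝ) / ((n + 1 : ℕ) : ℝ)) := by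
        rw [Subtype.dist_eq, Real.dist_eq, Real.dist_eq]
        exact abs_projIcc_sub_projIcc zero_le_one
      refine lt_of_le_of_lt h3 ?_
      rw [Real.dist_eq, abs_of_nonneg (by linarith)]
      have h4 : ((k : ℝ) + 1) / ((n + 1 : ℕ) : ℝ) =
          (k : ℝ) / ((n + 1 : ℕ) : ℝ) + 1 / ((n + 1 : ℕ) : ℝ) := by ring
      have h5 : 1 / ((n + 1 : ℕ) : ℝ) < ε := by
        push_cast
        exact hn
      linarith
    cases b
    · right
      intro t h1 h2
      have := hb (hclose t h1 h2)
      simpa using this
    · left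
      intro t h1 h2
      have := hb (hclose t h1 h2)
      simpa using this) (n + 1)
  refine ⟨⟨fun t => g t, hg.comp continuous_subtype_val⟩, fun t => ?_⟩
  have h1 := hgt (t : ℝ) t.2.1 (by rw [div_self hn'.ne']; exact t.2.2)
  have h2 : G t = γ t := by
    simp only [hG]
    rw [projIcc_val]
  rw [h2] at h1
  exact h1

end Pool.Agent.H72.Zp
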