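import Mathlib

set_option autoImplicit false

/-!
# A cubical Sperner lemma and the Poincaré-Miranda theorem

Mod 2 cup products of coboundaries of `ZMod 2`-valued functions on a grid.
-/

namespace Pool.Agent.H72.Zp

open Finset

variable {ι : Type*} [DecidableEq ι]

/-- The unit step in the direction `s`. -/
def st (v : ι → ℕ) (s : ι) : ι → ℕ := Function.update v s (v s + 1)

/-- The cup product of the coboundaries of the functions of the list `l`, evaluated on the cube with
lower corner `v` and directions `S`. -/
def W : List ((ι → ℕ) → ZMod 2) → Finset ι → (ι → ℕ) → ZMod 2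
  | [], _, _ => 1
  | c :: l, S, v => ∑ s ∈ S, (c (st v s) + c v) * W l (S.erase s) (st v s)

theorem z2 (a : ZMod 2) : a + a = 0 := CharTwo.add_self_eq_zero a

theorem st_comm (v : ι → ℕ) (s t : ι) (h : s ≠ t) : st (st v s) t = st (st v t) s := by
  unfold st
  rw [Function.update_of_ne h.symm, Function.update_of_ne h, Function.update_comm h]

/-- A symmetric sum over ordered pairs vanishes mod 2. -/
theorem sum_symm_zero (S : Finset ι) (f : ι → ι → ZMod 2) (hf : ∀ s t, s ≠ t → f s t = f t s) :
    ∑ s ∈ S, ∑ t ∈ S.erase s, f s t = 0 := by
  rw [sum_sigma']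
  refine sum_involution (fun x _ => ⟨x.2, x.1⟩) ?_ ?_ ?_ ?_
  · rintro ⟨s, t⟩ h
    simp only [mem_sigma, mem_erase] at h
    simp only
    rw [hf s t h.2.1.symm]
    exact z2 _
  · rintro ⟨s, t⟩ h _ heq
    simp only [mem_sigma, mem_erase] at h
    exact h.2.1 (congrArg Sigma.fst heq)
  · rintro ⟨s, t⟩ h
    simp only [mem_sigma, mem_erase] at h ⊢
    exact ⟨h.2.2, h.2.1.symm, h.1⟩
  · rintro ⟨s, t⟩ h
    rfl

/-- The cup product is closed. -/
theorem W_closed (l : List ((ι → ℕ) → ZMod 2)) : ∀ (S : Finset ι) (v : ι → ℕ),
    S.card = l.length + 1 →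
    ∑ s ∈ S, (W l (S.erase s) v + W l (S.erase s) (st v s)) = 0 := by
  induction l with
  | nil =>
    intro S v hS
    simp only [List.length_nil, zero_add] at hS
    obtain ⟨s, rfl⟩ := card_eq_one.1 hS
    simp only [sum_singleton, W]
    exact z2 1
  | cons c l ih =>
    intro S v hS
    simp only [List.length_cons] at hS
    have h1 : ∑ s ∈ S, W (c :: l) (S.erase s) v =
        ∑ t ∈ S, ∑ s ∈ S.erase t, (c (st v t) + c v) * W l ((S.erase t).erase s) (st v t) := by
      simp only [W]
      rw [sum_sigma', sum_sigma']
      refine sum_bij' (fun x _ => ⟨x.2, x.1⟩) (fun x _ => ⟨x.2, x.1⟩) ?_ ?_ ?_ ?_ ?_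
      · rintro ⟨s, t⟩ h
        simp only [mem_sigma, mem_erase] at h ⊢
        exact ⟨h.2.2, h.2.1.symm, h.1⟩
      · rintro ⟨s, t⟩ h
        simp only [mem_sigma, mem_erase] at h ⊢
        exact ⟨h.2.2, h.2.1.symm, h.1⟩
      · rintro ⟨s, t⟩ h; rfl
      · rintro ⟨s, t⟩ h; rfl
      · rintro ⟨s, t⟩ h
        simp only
        rw [erase_right_comm]
    have h2 : ∑ t ∈ S, ∑ s ∈ S.erase t, (c (st v t) + c v) * W l ((S.erase t).erase s) (st v t) =
        ∑ t ∈ S, ∑ s ∈ S.erase t,
          (c (st v t) + c v) * W l ((S.erase t).erase s) (st (st v t) s) := by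
      apply sum_congr rfl
      intro t ht
      rw [← mul_sum, ← mul_sum]
      congr 1
      have h3 := ih (S.erase t) (st v t) (by rw [card_erase_of_mem ht, hS]; rfl)
      rw [sum_add_distrib] at h3
      have h4 := z2 (∑ s ∈ S.erase t, W l ((S.erase t).erase s) (st (st v t) s))
      linear_combination h3 - h4
    rw [sum_add_distrib, h1, h2]
    simp only [W]
    rw [← sum_add_distrib]
    have h5 : ∀ s ∈ S, (∑ t ∈ S.erase s,
          (c (st v s) + c v) * W l ((S.erase s).erase t) (st (st v s) t) +
        ∑ t ∈ S.erase s, (c (st (st v s) t) + c (st v s)) *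
          W l ((S.erase s).erase t) (st (st v s) t)) =
        ∑ t ∈ S.erase s, (c v + c (st (st v s) t)) *
          W l ((S.erase s).erase t) (st (st v s) t) := by
      intro s _
      rw [← sum_add_distrib]
      apply sum_congr rfl
      intro t _
      have h6 := z2 (c (st v s))
      linear_combination (W l ((S.erase s).erase t) (st (st v s) t)) * h6
    rw [sum_congr rfl h5]
    apply sum_symm_zero
    intro s t hst
    rw [st_comm v s t hst, erase_right_comm]

/-- The box of lower corners: the coordinates in `S` run over `[0, N)`, the other ones are those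
of `u`. -/
def box [Fintype ι] (N : ℕ) (S : Finset ι) (u : ι → ℕ) : Finset (ι → ℕ) :=
  Fintype.piFinset (fun i => if i ∈ S then range N else {u i})

theorem mem_box [Fintype ι] {N : ℕ} {S : Finset ι} {u v : ι → ℕ} :
    v ∈ box N S u ↔ (∀ i ∈ S, v i < N) ∧ ∀ i ∉ S, v i = u i := by
  unfold box
  rw [Fintype.mem_piFinset]
  constructor
  · intro h
    refine ⟨fun i hi => ?_, fun i hi => ?_⟩
    · have := h i
      rwa [if_pos hi, mem_range] at this
    · have := h i
      rwa [if_neg hi, mem_singleton] at this
  · rintro ⟨h1, h2⟩ i
    by_cases hi : i ∈ S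
    · rw [if_pos hi, mem_range]
      exact h1 i hi
    · rw [if_neg hi, mem_singleton]
      exact h2 i hi

/-- Fubini for boxes. -/
theorem sum_box [Fintype ι] {N : ℕ} {S : Finset ι} {u : ι → ℕ} {s : ι} (hs : s ∈ S)
    (F : (ι → ℕ) → ZMod 2) :
    ∑ v ∈ box N S u, F v = ∑ w ∈ box N (S.erase s) u, ∑ k ∈ range N, F (Function.update w s k) := by
  rw [sum_sigma']
  refine sum_bij' (fun v _ => ⟨Function.update v s (u s), v s⟩)
    (fun x _ => Function.update x.1 s x.2) ?_ ?_ ?_ ?_ ?_
  · intro v hv
    rw [mem_box] at hv
    rw [mem_sigma, mem_box, mem_range]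
    refine ⟨⟨fun i hi => ?_, fun i hi => ?_⟩, hv.1 s hs⟩
    · rw [mem_erase] at hi
      simp only
      rw [Function.update_of_ne hi.1]
      exact hv.1 i hi.2
    · simp only
      by_cases his : i = s
      · subst his
        rw [Function.update_self]
      · rw [Function.update_of_ne his]
        exact hv.2 i (fun h => hi (mem_erase.2 ⟨his, h⟩))
  · rintro ⟨w, k⟩ h
    rw [mem_sigma, mem_box, mem_range] at h
    rw [mem_box]
    simp only at h ⊢
    refine ⟨fun i hi => ?_, fun i hi => ?_⟩
    · by_cases his : i = s
      · subst his
        rw [Function.update_self]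
        exact h.2
      · rw [Function.update_of_ne his]
        exact h.1.1 i (mem_erase.2 ⟨his, hi⟩)
    · have his : i ≠ s := fun h' => hi (h' ▸ hs)
      rw [Function.update_of_ne his]
      exact h.1.2 i (fun h' => hi (mem_erase.1 h').2)
  · intro v _
    simp
  · rintro ⟨w, k⟩ h
    rw [mem_sigma, mem_box] at h
    simp only at h
    have h2 : w s = u s := h.1.2 s (notMem_erase s S)
    simp only [Function.update_idem, Function.update_self, ← h2, Function.update_eq_self]
  · intro v _
    simp

/-- Telescoping in the direction `s`. -/
theorem sum_box_tele [Fintype ι] {N : ℕ} {S : Finset ι} {u : ι → ℕ} {s : ι} (hs : s ∈ S)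
    (G : (ι → ℕ) → ZMod 2) :
    ∑ v ∈ box N S u, (G (st v s) + G v) =
      ∑ w ∈ box N (S.erase s) u, (G (Function.update w s N) + G (Function.update w s 0)) := by
  rw [sum_box hs]
  apply sum_congr rfl
  intro w _
  have : ∀ n : ℕ, ∑ k ∈ range n, (G (st (Function.update w s k) s) + G (Function.update w s k)) =
      G (Function.update w s n) + G (Function.update w s 0) := by
    intro n
    induction n with
    | zero =>
      rw [sum_range_zero]
      exact (z2 _).symm
    | succ n ih =>
      rw [sum_range_succ, ih]
      have h1 : st (Function.update w s n) s = Function.update w s (n + 1) := by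
        unfold st
        rw [Function.update_self, Function.update_idem]
      rw [h1]
      have h2 := z2 (G (Function.update w s n))
      linear_combination h2
  exact this N

/-- The points of the cube with lower corner `v` and directions `S`. -/
def InCube (S : Finset ι) (v x : ι → ℕ) : Prop :=
  (∀ i ∈ S, v i ≤ x i ∧ x i ≤ v i + 1) ∧ ∀ i ∉ S, x i = v i

theorem InCube.step {S : Finset ι} {v x : ι → ℕ} {s : ι} (hs : s ∈ S)
    (h : InCube (S.erase s) (st v s) x) : InCube S v x := by
  refine ⟨fun i hi => ?_, fun i hi => ?_⟩
  · by_cases his : i = s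
    · subst his
      have := h.2 i (notMem_erase i S)
      rw [this]
      unfold st
      rw [Function.update_self]
      omega
    · have := h.1 i (mem_erase.2 ⟨his, hi⟩)
      unfold st at this
      rwa [Function.update_of_ne his] at this
  · have his : i ≠ s := fun h' => hi (h' ▸ hs)
    have := h.2 i (fun h' => hi (mem_erase.1 h').2)
    unfold st at this
    rwa [Function.update_of_ne his] at this

theorem inCube_self (S : Finset ι) (v : ι → ℕ) : InCube S v v :=
  ⟨fun _ _ => ⟨le_rfl, Nat.le_succ _⟩, fun _ _ => rfl⟩

theorem inCube_st {S : Finset ι} {v : ι → ℕ} {s : ι} (hs : s ∈ S) : InCube S v (st v s) := by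
  refine ⟨fun i hi => ?_, fun i hi => ?_⟩
  · unfold st
    by_cases his : i = s
    · subst his
      rw [Function.update_self]
      omega
    · rw [Function.update_of_ne his]
      omega
  · have his : i ≠ s := fun h' => hi (h' ▸ hs)
    unfold st
    rw [Function.update_of_ne his]

/-- If the cup product does not vanish on a cube then every function changes on the cube. -/
theorem W_ne_zero (l : List ((ι → ℕ) → ZMod 2)) : ∀ (S : Finset ι) (v : ι → ℕ), W l S v ≠ 0 →
    ∀ c ∈ l, ∃ x y, InCube S v x ∧ InCube S v y ∧ c x ≠ c y := by
  induction l with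
  | nil =>
    intro S v _ c hc
    exact absurd hc (List.not_mem_nil)
  | cons d l ih =>
    intro S v hW c hc
    simp only [W] at hW
    obtain ⟨s, hs, hne⟩ := exists_ne_zero_of_sum_ne_zero hW
    rcases List.mem_cons.1 hc with rfl | hc'
    · refine ⟨st v s, v, inCube_st hs, inCube_self S v, fun h => ?_⟩
      apply hne
      rw [h, z2, zero_mul]
    · obtain ⟨x, y, hx, hy, hxy⟩ := ih (S.erase s) (st v s) (right_ne_zero_of_mul hne) c hc'
      exact ⟨x, y, hx.step hs, hy.step hs, hxy⟩

/-- The cubical Sperner lemma. -/
theorem sperner_sum [Fintype ι] {N : ℕ} (c : ι → (ι → ℕ) → ZMod 2)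
    (h0 : ∀ i v, v i = 0 → c i v = 0) (h1 : ∀ i v, v i = N → c i v = 1) (L : List ι) :
    L.Nodup → ∀ u : ι → ℕ, ∑ v ∈ box N L.toFinset u, W (L.map c) L.toFinset v = 1 := by
  induction L with
  | nil =>
    intro _ u
    have : box N (([] : List ι).toFinset) u = {u} := by
      ext v
      rw [mem_box, mem_singleton]
      simp only [List.toFinset_nil, notMem_empty, false_imp_iff, implies_true, not_false_eq_true,
        true_imp_iff, true_and]
      exact funext_iff.symm
    rw [this]
    simp [W]
  | cons i L ih =>
    intro hnd u
    have hiL : i ∉ L := (List.nodup_cons.1 hnd).1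
    have hLn : L.Nodup := (List.nodup_cons.1 hnd).2
    set S := (i :: L).toFinset with hS
    have hiS : i ∈ S := by simp [hS]
    have hSe : S.erase i = L.toFinset := by
      ext j
      rw [mem_erase, hS, List.mem_toFinset, List.mem_cons, List.mem_toFinset]
      constructor
      · rintro ⟨h1, h2⟩
        exact h2.resolve_left h1
      · intro h
        exact ⟨fun h' => hiL (h' ▸ h), Or.inr h⟩
    have hcard : S.card = (L.map c).length + 1 := by
      rw [hS, List.toFinset_card_of_nodup hnd, List.length_map, List.length_cons]
    have hexp : ∀ v, W ((i :: L).map c) S v =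
        ∑ s ∈ S, (c i (st v s) * W (L.map c) (S.erase s) (st v s) +
          c i v * W (L.map c) (S.erase s) v) := by
      intro v
      rw [List.map_cons]
      simp only [W]
      have h3 := W_closed (L.map c) S v hcard
      rw [sum_add_distrib] at h3
      rw [sum_add_distrib]
      have h4 : ∑ s ∈ S, c i v * W (L.map c) (S.erase s) v =
          ∑ s ∈ S, c i v * W (L.map c) (S.erase s) (st v s) := by
        rw [← mul_sum, ← mul_sum]
        have h5 := z2 (∑ s ∈ S, W (L.map c) (S.erase s) (st v s))
        linear_combination (c i v) * h3 - (c i v) * h5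
      rw [h4, ← sum_add_distrib]
      apply sum_congr rfl
      intro s _
      ring
    simp only [hexp]
    rw [sum_comm]
    have hterm : ∀ s ∈ S, ∑ v ∈ box N S u, (c i (st v s) * W (L.map c) (S.erase s) (st v s) +
          c i v * W (L.map c) (S.erase s) v) = if s = i then 1 else 0 := by
      intro s hs
      have h3 := sum_box_tele (N := N) (u := u) hs
        (fun v => c i v * W (L.map c) (S.erase s) v)
      rw [h3]
      by_cases hsi : s = i
      · subst hsi
        rw [if_pos rfl]
        have h4 : ∀ w ∈ box N (S.erase s) u,
            (c s (Function.update w s N) * W (L.map c) (S.erase s) (Function.update w s N) +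
              c s (Function.update w s 0) * W (L.map c) (S.erase s) (Function.update w s 0)) =
            W (L.map c) (S.erase s) (Function.update w s N) := by
          intro w _
          rw [h1 s _ (Function.update_self _ _ _), h0 s _ (Function.update_self _ _ _)]
          ring
        rw [sum_congr rfl h4]
        have h5 := ih hLn (Function.update u s N)
        rw [← hSe] at h5
        rw [← h5]
        refine sum_bij' (fun w _ => Function.update w s N) (fun w _ => Function.update w s (u s))
          ?_ ?_ ?_ ?_ ?_
        · intro w hw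
          rw [mem_box] at hw ⊢
          refine ⟨fun j hj => ?_, fun j hj => ?_⟩
          · rw [Function.update_of_ne (mem_erase.1 hj).1]
            exact hw.1 j hj
          · by_cases hjs : j = s
            · subst hjs
              rw [Function.update_self, Function.update_self]
            · rw [Function.update_of_ne hjs, Function.update_of_ne hjs]
              exact hw.2 j hj
        · intro w hw
          rw [mem_box] at hw ⊢
          refine ⟨fun j hj => ?_, fun j hj => ?_⟩
          · rw [Function.update_of_ne (mem_erase.1 hj).1]
            exact hw.1 j hj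
          · by_cases hjs : j = s
            · subst hjs
              rw [Function.update_self]
            · have := hw.2 j hj
              rw [Function.update_of_ne hjs] at this ⊢
              exact this
        · intro w hw
          rw [mem_box] at hw
          have := hw.2 s (notMem_erase s S)
          simp only [Function.update_idem, ← this, Function.update_eq_self]
        · intro w hw
          rw [mem_box] at hw
          have := hw.2 s (notMem_erase s S)
          rw [Function.update_self] at this
          simp only [Function.update_idem, ← this, Function.update_eq_self]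
        · intro w _
          rfl
      · rw [if_neg hsi]
        have hsL : s ∈ L := by
          rw [hS, List.mem_toFinset, List.mem_cons] at hs
          exact hs.resolve_left hsi
        have hzero : ∀ (w : ι → ℕ) (N' : ℕ) (e : ZMod 2), (∀ v : ι → ℕ, v s = N' → c s v = e) →
            w s = N' → W (L.map c) (S.erase s) w = 0 := by
          intro w N' e he hw
          by_contra hne
          obtain ⟨x, y, hx, hy, hxy⟩ := W_ne_zero _ _ _ hne (c s) (List.mem_map_of_mem hsL)
          apply hxy
          rw [he x (by rw [hx.2 s (notMem_erase s S), hw]),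
            he y (by rw [hy.2 s (notMem_erase s S), hw])]
        apply sum_eq_zero
        intro w _
        rw [hzero _ N 1 (h1 s) (Function.update_self _ _ _),
          hzero _ 0 0 (h0 s) (Function.update_self _ _ _)]
        ring
    rw [sum_congr rfl hterm, sum_ite_eq' S i, if_pos hiS]

end Pool.Agent.H72.Zp
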