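import Mathlib
import Pool.Agent.H72.Zp.PM

set_option autoImplicit false

/-!
# The Poincaré-Miranda theorem
-/

namespace Pool.Agent.H72.Zp

open Finset unitInterval

variable {ι : Type*} [DecidableEq ι] [Fintype ι]

/-- The grid point with numerators `v`, cut off at `1`. -/
noncomputable def pt (N : ℕ) (v : ι → ℕ) : ι → I := fun i =>
  ⟨min ((v i : ℝ) / N) 1, le_min (by positivity) zero_le_one, min_le_right _ _⟩

theorem dist_pt {N : ℕ} (hN : 0 < N) {v x : ι → ℕ} {S : Finset ι} (h : InCube S v x) :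
    dist (pt N x) (pt N v) ≤ 1 / N := by
  have hN' : (0 : ℝ) < N := by exact_mod_cast hN
  rw [dist_pi_le_iff (by positivity)]
  intro i
  rw [Subtype.dist_eq, Real.dist_eq]
  simp only [pt]
  have h1 : |min ((x i : ℝ) / N) 1 - min ((v i : ℝ) / N) 1| ≤ |(x i : ℝ) / N - (v i : ℝ) / N| := by
    have := abs_min_sub_min_le_max ((x i : ℝ) / N) 1 ((v i : ℝ) / N) 1
    simpa using this
  refine h1.trans ?_
  rw [← sub_div, abs_div, abs_of_pos hN']
  apply div_le_div_of_nonneg_right _ hN'.le
  by_cases hi : i ∈ S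
  · obtain ⟨h2, h3⟩ := h.1 i hi
    have h4 : (v i : ℝ) ≤ x i := by exact_mod_cast h2
    have h5 : (x i : ℝ) ≤ v i + 1 := by exact_mod_cast h3
    rw [abs_le]
    constructor <;> linarith
  · rw [h.2 i hi]
    simp

/-- The Poincaré-Miranda theorem with strict inequalities on the faces. -/
theorem poincare_miranda (F : ι → (ι → I) → ℝ) (hF : ∀ i, Continuous (F i))
    (h0 : ∀ i x, x i = 0 → F i x < 0) (h1 : ∀ i x, x i = 1 → 0 < F i x) :
    ∃ x, ∀ i, F i x = 0 := by
  by_contra hcon
  push Not at hcon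
  set G : (ι → I) → ℝ := fun x => ∑ i, |F i x| with hG
  have hGc : Continuous G := continuous_finsetSum _ fun i _ => (hF i).abs
  obtain ⟨x0, -, hx0⟩ := (isCompact_univ (X := ι → I)).exists_isMinOn ⟨fun _ => 0, Set.mem_univ _⟩
    hGc.continuousOn
  have hδ : 0 < G x0 := by
    obtain ⟨i, hi⟩ := hcon x0
    exact sum_pos' (fun j _ => abs_nonneg _) ⟨i, mem_univ _, abs_pos.2 hi⟩
  set ε : ℝ := G x0 / (Fintype.card ι + 1) with hε
  have hε0 : 0 < ε := by positivity
  have huc : ∀ i, ∃ η > 0, ∀ x y : ι → I, dist x y < η → dist (F i x) (F i y) < ε := by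
    intro i
    have := CompactSpace.uniformContinuous_of_continuous (hF i)
    obtain ⟨η, h2, h3⟩ := Metric.uniformContinuous_iff.1 this ε hε0
    exact ⟨η, h2, fun x y h => h3 h⟩
  choose η hη0 hη using huc
  obtain ⟨η', hη'0, hη'⟩ : ∃ η' > 0, ∀ i, η' ≤ η i := by
    rcases isEmpty_or_nonempty ι with he | he
    · exact ⟨1, one_pos, fun i => (he.false i).elim⟩
    · obtain ⟨j, hj⟩ := Finite.exists_min η
      exact ⟨η j, hη0 j, hj⟩
  obtain ⟨N, hN⟩ := exists_nat_one_div_lt hη'0
  have hN1 : 0 < N + 1 := Nat.succ_pos N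
  set c : ι → (ι → ℕ) → ZMod 2 := fun i v => if 0 < F i (pt (N + 1) v) then 1 else 0 with hc
  have hs := sperner_sum (N := N + 1) c
    (by
      intro i v hv
      simp only [hc]
      rw [if_neg]
      rw [not_lt]
      refine (h0 i _ ?_).le
      apply Subtype.ext
      simp only [pt, hv]
      simp)
    (by
      intro i v hv
      simp only [hc]
      rw [if_pos]
      refine h1 i _ ?_
      apply Subtype.ext
      simp only [pt, hv]
      rw [div_self (by positivity)]
      simp)
    univ.toList (nodup_toList _) (fun _ => 0)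
  obtain ⟨v, hv, hne⟩ := exists_ne_zero_of_sum_ne_zero (s := box (N + 1) univ.toList.toFinset _)
    (by rw [hs]; exact one_ne_zero)
  have hsmall : ∀ i, |F i (pt (N + 1) v)| < ε := by
    intro i
    obtain ⟨x, y, hx, hy, hxy⟩ := W_ne_zero _ _ _ hne (c i)
      (List.mem_map_of_mem (mem_toList.2 (mem_univ i)))
    have hclose : ∀ z, InCube univ.toList.toFinset v z →
        |F i (pt (N + 1) z) - F i (pt (N + 1) v)| < ε := by
      intro z hz
      have h2 := dist_pt hN1 hz
      have h3 : dist (pt (N + 1) z) (pt (N + 1) v) < η i := by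
        refine lt_of_le_of_lt h2 (lt_of_lt_of_le ?_ (hη' i))
        push_cast
        exact hN
      have := hη i _ _ h3
      rwa [Real.dist_eq] at this
    have hx' := abs_lt.1 (hclose x hx)
    have hy' := abs_lt.1 (hclose y hy)
    simp only [hc] at hxy
    rw [abs_lt]
    split_ifs at hxy with h4 h5 h5
    · exact absurd rfl hxy
    · push Not at h5
      constructor <;> linarith
    · push Not at h4
      constructor <;> linarith
    · exact absurd rfl hxy
  have hmin : G x0 ≤ G (pt (N + 1) v) := hx0 (Set.mem_univ _)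
  have hle : G (pt (N + 1) v) ≤ Fintype.card ι * ε := by
    simp only [hG]
    calc ∑ i, |F i (pt (N + 1) v)| ≤ ∑ _i : ι, ε := sum_le_sum fun i _ => (hsmall i).le
      _ = Fintype.card ι * ε := by rw [sum_const, card_univ, nsmul_eq_mul]
  have hlt : Fintype.card ι * ε < G x0 := by
    have : (Fintype.card ι + 1 : ℝ) * ε = G x0 := by
      rw [hε]
      field_simp
    nlinarith
  linarith

end Pool.Agent.H72.Zp
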