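import Mathlib
import Pool.Agent.H72.Zp.Loc
import Pool.Agent.H72.Zp.PM2

set_option autoImplicit false

/-!
# Two separating points contradict the property `HDD`
-/

namespace Pool.Agent.H72.Zp

open Set Topology TopologicalSpace unitInterval Filter

theorem exists_eps_of_compact {X : Type*} [MetricSpace X] {K U : Set X} (hK : IsCompact K)
    (hU : IsOpen U) (hKU : K ⊆ U) : ∃ ε > 0, ∀ x ∈ K, ∀ y, dist y x < ε → y ∈ U := by
  obtain ⟨ε, hε, h⟩ := hK.exists_thickening_subset_open hU hKU
  exact ⟨ε, hε, fun x hx y hy => h (Metric.mem_thickening_iff.2 ⟨x, hx, hy⟩)⟩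

/-- The cover by balls. -/
def ballCover (X : Type*) [MetricSpace X] (ε : ℝ) : Set (Set X) := {u | ∃ x, u = Metric.ball x ε}

theorem openCover_ballCover {X : Type*} [MetricSpace X] {ε : ℝ} (hε : 0 < ε) :
    OpenCover (ballCover X ε) := by
  refine ⟨?_, ?_⟩
  · rintro _ ⟨x, rfl⟩
    exact Metric.isOpen_ball
  · rw [eq_univ_iff_forall]
    intro x
    exact ⟨_, ⟨x, rfl⟩, Metric.mem_ball_self hε⟩

theorem dist_of_uHomotopic {K X : Type*} [TopologicalSpace K] [MetricSpace X] {ε : ℝ}
    {f g : C(K, X)} (h : UHomotopic (ballCover X (ε / 2)) f g) (z : K) : dist (g z) (f z) < ε := by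
  obtain ⟨h, h0, h1, h2⟩ := h
  obtain ⟨u, ⟨x, rfl⟩, hu⟩ := h2 z
  have e0 := hu 0
  have e1 := hu 1
  rw [h0, Metric.mem_ball] at e0
  rw [h1, Metric.mem_ball] at e1
  have := dist_triangle_right (g z) (f z) x
  linarith

/-- Continuity of the inverse of an open embedding. -/
theorem continuousAt_invFun {P X : Type*} [TopologicalSpace P] [TopologicalSpace X] [Nonempty P]
    {e : P → X} (he : IsOpenEmbedding e) (p : P) : ContinuousAt (Function.invFun e) (e p) := by
  have h1 : Function.invFun e (e p) = p := Function.leftInverse_invFun he.injective p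
  unfold ContinuousAt
  rw [h1, ← he.map_nhds_eq p, tendsto_map'_iff]
  have h2 : Function.invFun e ∘ e = id := funext (Function.leftInverse_invFun he.injective)
  rw [h2]
  exact tendsto_id

theorem not_sep_sep {X A B : Type*} [MetricSpace X] [TopologicalSpace A] [TopologicalSpace B]
    (hH : HDD00 X) {e : A × B → X} (he : IsOpenEmbedding e) {a : A} {b : B} (ha : Sep a)
    (hb : Sep b) : False := by
  obtain ⟨VA, lA, γA, hVA, hlA, hzA, hγA, hA0, hA1⟩ := ha
  obtain ⟨VB, lB, γB, hVB, hlB, hzB, hγB, hB0, hB1⟩ := hb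
  have hne : Nonempty (A × B) := ⟨(a, b)⟩
  set π : X → A × B := Function.invFun e with hπ
  have hπe : ∀ p, π (e p) = p := Function.leftInverse_invFun he.injective
  set O : Set X := e '' (VA ×ˢ VB) with hO
  have hOo : IsOpen O := he.isOpenMap _ (hVA.prod hVB)
  set LA : X → ℝ := fun x => lA (π x).1 with hLA
  set LB : X → ℝ := fun x => lB (π x).2 with hLB
  have hLAc : ∀ x ∈ O, ContinuousAt LA x := by
    rintro _ ⟨p, hp, rfl⟩
    have h1 : ContinuousAt π (e p) := continuousAt_invFun he p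
    have h2 : ContinuousAt lA (π (e p)).1 := by
      rw [hπe]
      exact hlA.continuousAt (hVA.mem_nhds hp.1)
    exact ContinuousAt.comp (f := fun x => (π x).1) h2 h1.fst
  have hLBc : ∀ x ∈ O, ContinuousAt LB x := by
    rintro _ ⟨p, hp, rfl⟩
    have h1 : ContinuousAt π (e p) := continuousAt_invFun he p
    have h2 : ContinuousAt lB (π (e p)).2 := by
      rw [hπe]
      exact hlB.continuousAt (hVB.mem_nhds hp.2)
    exact ContinuousAt.comp (f := fun x => (π x).2) h2 h1.snd
  have hLAo : ContinuousOn LA O := fun x hx => (hLAc x hx).continuousWithinAt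
  have hLBo : ContinuousOn LB O := fun x hx => (hLBc x hx).continuousWithinAt
  -- the basic square
  set Q : unitInterval × unitInterval → X := fun s => e (γA s.1, γB s.2) with hQ
  have hQc : Continuous Q := he.continuous.comp
    ((γA.continuous.comp continuous_fst).prodMk (γB.continuous.comp continuous_snd))
  have hQO : ∀ s, Q s ∈ O := fun s => ⟨_, ⟨hγA _, hγB _⟩, rfl⟩
  have hQA : ∀ s, LA (Q s) = lA (γA s.1) := fun s => by simp only [hLA, hQ, hπe]
  have hQB : ∀ s, LB (Q s) = lB (γB s.2) := fun s => by simp only [hLB, hQ, hπe]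
  have heps : ∀ (S : Set (unitInterval × unitInterval)) (U : Set X), IsClosed S → IsOpen U →
      (∀ s ∈ S, Q s ∈ U) → ∃ ε > 0, ∀ s ∈ S, ∀ y, dist y (Q s) < ε → y ∈ U := by
    intro S U hS hU hSU
    obtain ⟨ε, hε, h⟩ := exists_eps_of_compact (hS.isCompact.image hQc) hU
      (by rintro _ ⟨s, hs, rfl⟩; exact hSU s hs)
    exact ⟨ε, hε, fun s hs y hy => h _ (mem_image_of_mem Q hs) y hy⟩
  obtain ⟨ε0, hε0, h0⟩ := heps univ O isClosed_univ hOo (fun s _ => hQO s)
  obtain ⟨ε1, hε1, h1⟩ := heps {s | s.1 = 0} (O ∩ LA ⁻¹' Iio 0)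
    (isClosed_eq continuous_fst continuous_const) (hLAo.isOpen_inter_preimage hOo isOpen_Iio)
    (fun s hs => ⟨hQO s, by
      have : s.1 = 0 := hs
      rw [mem_preimage, hQA, this]; exact hA0⟩)
  obtain ⟨ε2, hε2, h2⟩ := heps {s | s.1 = 1} (O ∩ LA ⁻¹' Ioi 0)
    (isClosed_eq continuous_fst continuous_const) (hLAo.isOpen_inter_preimage hOo isOpen_Ioi)
    (fun s hs => ⟨hQO s, by
      have : s.1 = 1 := hs
      rw [mem_preimage, hQA, this]; exact hA1⟩)
  obtain ⟨ε3, hε3, h3⟩ := heps {s | s.2 = 0} (O ∩ LB ⁻¹' Iio 0)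
    (isClosed_eq continuous_snd continuous_const) (hLBo.isOpen_inter_preimage hOo isOpen_Iio)
    (fun s hs => ⟨hQO s, by
      have : s.2 = 0 := hs
      rw [mem_preimage, hQB, this]; exact hB0⟩)
  obtain ⟨ε4, hε4, h4⟩ := heps {s | s.2 = 1} (O ∩ LB ⁻¹' Ioi 0)
    (isClosed_eq continuous_snd continuous_const) (hLBo.isOpen_inter_preimage hOo isOpen_Ioi)
    (fun s hs => ⟨hQO s, by
      have : s.2 = 1 := hs
      rw [mem_preimage, hQB, this]; exact hB1⟩)
  set ε : ℝ := min ε0 (min (min ε1 ε2) (min ε3 ε4)) with hε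
  have hεpos : 0 < ε := lt_min hε0 (lt_min (lt_min hε1 hε2) (lt_min hε3 hε4))
  have le0 : ε ≤ ε0 := min_le_left _ _
  have le1 : ε ≤ ε1 := (min_le_right _ _).trans ((min_le_left _ _).trans (min_le_left _ _))
  have le2 : ε ≤ ε2 := (min_le_right _ _).trans ((min_le_left _ _).trans (min_le_right _ _))
  have le3 : ε ≤ ε3 := (min_le_right _ _).trans ((min_le_right _ _).trans (min_le_left _ _))
  have le4 : ε ≤ ε4 := (min_le_right _ _).trans ((min_le_right _ _).trans (min_le_right _ _))
  set f : C(Cube 4, X) := ⟨fun z => Q (z 0, z 1),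
    hQc.comp ((continuous_apply 0).prodMk (continuous_apply 1))⟩ with hf
  set g : C(Cube 4, X) := ⟨fun z => Q (z 2, z 3),
    hQc.comp ((continuous_apply 2).prodMk (continuous_apply 3))⟩ with hg
  obtain ⟨f', g', hff, hgg, hfg⟩ := hH 4 (ballCover X (ε / 2))
    (openCover_ballCover (half_pos hεpos)) f g
  have df : ∀ z, dist (f' z) (Q (z 0, z 1)) < ε := dist_of_uHomotopic hff
  have dg : ∀ z, dist (g' z) (Q (z 2, z 3)) < ε := dist_of_uHomotopic hgg
  have f'O : ∀ z, f' z ∈ O := fun z => h0 _ (mem_univ _) _ ((df z).trans_le le0)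
  have g'O : ∀ z, g' z ∈ O := fun z => h0 _ (mem_univ _) _ ((dg z).trans_le le0)
  obtain ⟨z, hz⟩ := poincare_miranda
    (![fun z => LA (f' z), fun z => LB (f' z), fun z => LA (g' z), fun z => LB (g' z)] :
      Fin 4 → (Fin 4 → unitInterval) → ℝ)
    (by
      intro i
      fin_cases i
      · exact continuous_iff_continuousAt.2 fun z =>
          ContinuousAt.comp (f := f') (hLAc _ (f'O z)) f'.continuous.continuousAt
      · exact continuous_iff_continuousAt.2 fun z =>
          ContinuousAt.comp (f := f') (hLBc _ (f'O z)) f'.continuous.continuousAt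
      · exact continuous_iff_continuousAt.2 fun z =>
          ContinuousAt.comp (f := g') (hLAc _ (g'O z)) g'.continuous.continuousAt
      · exact continuous_iff_continuousAt.2 fun z =>
          ContinuousAt.comp (f := g') (hLBc _ (g'O z)) g'.continuous.continuousAt)
    (by
      intro i z hz
      fin_cases i
      · exact (h1 (z 0, z 1) hz _ ((df z).trans_le le1)).2
      · exact (h3 (z 0, z 1) hz _ ((df z).trans_le le3)).2
      · exact (h1 (z 2, z 3) hz _ ((dg z).trans_le le1)).2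
      · exact (h3 (z 2, z 3) hz _ ((dg z).trans_le le3)).2)
    (by
      intro i z hz
      fin_cases i
      · exact (h2 (z 0, z 1) hz _ ((df z).trans_le le2)).2
      · exact (h4 (z 0, z 1) hz _ ((df z).trans_le le4)).2
      · exact (h2 (z 2, z 3) hz _ ((dg z).trans_le le2)).2
      · exact (h4 (z 2, z 3) hz _ ((dg z).trans_le le4)).2)
  have hpt : ∀ x ∈ O, LA x = 0 → LB x = 0 → x = e (a, b) := by
    rintro _ ⟨⟨p, q⟩, ⟨hp, hq⟩, rfl⟩ h5 h6
    simp only [hLA, hLB, hπe] at h5 h6
    rw [hzA p hp h5, hzB q hq h6]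
  have e1 : f' z = e (a, b) := hpt _ (f'O z) (hz 0) (hz 1)
  have e2 : g' z = e (a, b) := hpt _ (g'O z) (hz 2) (hz 3)
  exact hfg z (e1.trans e2.symm)

end Pool.Agent.H72.Zp
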