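import Mathlib
import Pool.Agent.H72.Zp.PathL
import Pool.Agent.H72.Zp.Ext
import Pool.Agent.H72.Zp.SepCase

set_option autoImplicit false

/-!
# General position of a map on an edge and at a point
-/

namespace Pool.Agent.H72.Zp

open Set Topology TopologicalSpace unitInterval Filter

universe u

/-- The inverse of an open embedding is continuous on the range. -/
theorem continuousOn_invFun {P X : Type*} [TopologicalSpace P] [TopologicalSpace X] [Nonempty P]
    {e : P → X} (he : IsOpenEmbedding e) : ContinuousOn (Function.invFun e) (range e) := by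
  rintro _ ⟨p, rfl⟩
  exact (continuousAt_invFun he p).continuousWithinAt

/-- Uniform closeness of `e (x, y)` and `e (x', y)` for `x`, `x'` close to `a`, `y` in a compact
set. -/
theorem exists_nhd_close {X A B : Type*} [MetricSpace X] [TopologicalSpace A] [TopologicalSpace B]
    {e : A × B → X} (he : Continuous e) (a : A) {C : Set B} (hC : IsCompact C) {δ : ℝ}
    (hδ : 0 < δ) : ∃ V : Set A, IsOpen V ∧ a ∈ V ∧ ∀ x ∈ V, ∀ x' ∈ V, ∀ y ∈ C,
      dist (e (x, y)) (e (x', y)) < δ := by
  set n : Set ((A × A) × B) := {q | dist (e (q.1.1, q.2)) (e (q.1.2, q.2)) < δ} with hn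
  have hno : IsOpen n := by
    refine isOpen_lt ?_ continuous_const
    refine Continuous.dist (he.comp ?_) (he.comp ?_) <;> fun_prop
  have hsub : ({(a, a)} : Set (A × A)) ×ˢ C ⊆ n := by
    rintro ⟨⟨x, x'⟩, y⟩ ⟨h1, -⟩
    simp only [mem_singleton_iff, Prod.mk.injEq] at h1
    obtain ⟨rfl, rfl⟩ := h1
    simp only [hn, mem_ofPred_eq, dist_self]
    exact hδ
  obtain ⟨u, v, hu, hv, hau, hCv, huv⟩ := generalized_tube_lemma isCompact_singleton hC hno hsub
  obtain ⟨u1, u2, hu1, hu2, ha1, ha2, h12⟩ := isOpen_prod_iff.1 hu a a (hau rfl)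
  refine ⟨u1 ∩ u2, hu1.inter hu2, ⟨ha1, ha2⟩, fun x hx x' hx' y hy => ?_⟩
  exact huv (show ((x, x'), y) ∈ u ×ˢ v from ⟨h12 ⟨hx.1, hx'.2⟩, hCv hy⟩)

theorem edge_lemma {X : Type u} [MetricSpace X] [CompactSpace X] [Nonempty X] (hX : CompactAR X)
    {A B : Type*} [TopologicalSpace A] [TopologicalSpace B] {e : A × B → X}
    (he : IsOpenEmbedding e) {a : A} (hcl : IsClosed ({a} : Set A)) (ha : NonSep a)
    {K : Type} [TopologicalSpace K] [NormalSpace K] {ι : unitInterval → K}
    (hι : IsClosedEmbedding ι) (h : C(K, X)) (hr : ∀ t, h (ι t) ∈ range e) {ε : ℝ} (hε : 0 < ε) :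
    ∃ h' : C(K, X), (∀ z, dist (h' z) (h z) < ε) ∧ ∀ t, ∀ p, h' (ι t) = e p → p.1 ≠ a := by
  obtain ⟨δ, hδ, hext⟩ := perturbation_extension hX hε
  have hne : Nonempty (A × B) := by
    obtain ⟨p, -⟩ := hr 0
    exact ⟨p⟩
  set π : X → A × B := Function.invFun e with hπ
  have hπe : ∀ p, π (e p) = p := Function.leftInverse_invFun he.injective
  have hπc : Continuous fun t => π (h (ι t)) := by
    refine (continuousOn_invFun he).comp_continuous (h.continuous.comp hι.continuous) hr
  have hC : IsCompact (range fun t : unitInterval => (π (h (ι t))).2) :=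
    isCompact_range (continuous_snd.comp hπc)
  obtain ⟨V, hVo, haV, hV⟩ := exists_nhd_close he.continuous a hC hδ
  obtain ⟨V', hV'V, hV'o, haV', hV'p⟩ := ha V (hVo.mem_nhds haV)
  obtain ⟨γ', hγ'⟩ := push_path hcl hV'o haV' hV'p
    (⟨fun t => (π (h (ι t))).1, continuous_fst.comp hπc⟩ : C(unitInterval, A))
  have hf1c : Continuous fun t : unitInterval => e (γ' t, (π (h (ι t))).2) :=
    he.continuous.comp (γ'.continuous.prodMk (continuous_snd.comp hπc))
  have heq : ∀ t, h (ι t) = e ((π (h (ι t))).1, (π (h (ι t))).2) := by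
    intro t
    obtain ⟨p, hp⟩ := hr t
    rw [← hp, hπe]
  obtain ⟨g, hg1, hg2⟩ := hext ι hι h ⟨_, hf1c⟩ (by
    intro t
    simp only [ContinuousMap.coe_mk]
    rcases (hγ' t).2 with h1 | ⟨h1, h2⟩
    · rw [h1]
      simp only [ContinuousMap.coe_mk]
      rw [← heq t, dist_self]
      exact hδ.le
    · have h3 := hV _ (hV'V h1) _ (hV'V h2) (π (h (ι t))).2 ⟨t, rfl⟩
      simp only [ContinuousMap.coe_mk] at h3
      rw [← heq t] at h3
      exact h3.le)
  refine ⟨g, hg2, fun t p hp => ?_⟩
  rw [hg1 t] at hp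
  simp only [ContinuousMap.coe_mk] at hp
  rw [← he.injective hp]
  exact (hγ' t).1

theorem center_lemma {X : Type u} [MetricSpace X] [CompactSpace X] [Nonempty X] (hX : CompactAR X)
    {A B : Type*} [TopologicalSpace A] [TopologicalSpace B] {e : A × B → X}
    (he : IsOpenEmbedding e) {b : B} (hb : ¬ IsOpen ({b} : Set B))
    {K : Type} [TopologicalSpace K] [NormalSpace K] [T1Space K] (z0 : K) (h : C(K, X))
    (hr : h z0 ∈ range e) {ε : ℝ} (hε : 0 < ε) :
    ∃ h' : C(K, X), (∀ z, dist (h' z) (h z) < ε) ∧ ∀ p, h' z0 = e p → p.2 ≠ b := by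
  obtain ⟨⟨a', b0⟩, hp⟩ := hr
  by_cases hb0 : b0 = b
  · subst hb0
    obtain ⟨δ, hδ, hext⟩ := perturbation_extension hX hε
    have hopen : IsOpen {y : B | dist (e (a', y)) (e (a', b0)) < δ} := by
      refine isOpen_lt (Continuous.dist (he.continuous.comp ?_) continuous_const) continuous_const
      fun_prop
    have hex : ∃ b', b' ∈ {y : B | dist (e (a', y)) (e (a', b0)) < δ} ∧ b' ≠ b0 := by
      by_contra hcon
      push Not at hcon
      apply hb
      have : ({b0} : Set B) = {y : B | dist (e (a', y)) (e (a', b0)) < δ} := by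
        ext y
        constructor
        · intro hy
          rw [mem_singleton_iff] at hy
          subst hy
          simpa using hδ
        · intro hy
          exact hcon y hy
      rw [this]
      exact hopen
    obtain ⟨b', hb1, hb2⟩ := hex
    have hι : IsClosedEmbedding (fun _ : Unit => z0) := by
      refine IsClosedEmbedding.of_continuous_injective_isClosedMap continuous_const
        (fun _ _ _ => rfl) ?_
      intro C _
      exact (Set.toFinite _).isClosed
    obtain ⟨g, hg1, hg2⟩ := hext (fun _ : Unit => z0) hι h ⟨fun _ => e (a', b'), continuous_const⟩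
      (by
        intro t
        simp only [ContinuousMap.coe_mk]
        rw [← hp]
        exact le_of_lt hb1)
    refine ⟨g, hg2, fun p hp' => ?_⟩
    have h1 := hg1 ()
    simp only [ContinuousMap.coe_mk] at h1
    rw [h1] at hp'
    rw [← he.injective hp']
    exact hb2
  · refine ⟨h, fun z => by rw [dist_self]; exact hε, fun p hp' => ?_⟩
    rw [← hp] at hp'
    rw [← he.injective hp']
    exact hb0

/-- Finitely many open conditions which are dense in an open set. -/
theorem finite_gp {Y κ : Type*} [MetricSpace Y] (S : Finset κ) (O : κ → Set Y)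
    {W : Set Y} (hW : IsOpen W) (hO : ∀ s ∈ S, IsOpen (O s))
    (hd : ∀ s ∈ S, ∀ h ∈ W, ∀ ε > 0, ∃ h' ∈ O s, dist h' h < ε) {f : Y} (hf : f ∈ W) {ε : ℝ}
    (hε : 0 < ε) : ∃ f1 ∈ W, dist f1 f < ε ∧ ∀ s ∈ S, f1 ∈ O s := by
  classical
  induction S using Finset.induction_on with
  | empty => exact ⟨f, hf, by rwa [dist_self], by simp⟩
  | insert s S hs ih =>
    obtain ⟨f1, h1, h2, h3⟩ := ih (fun t ht => hO t (Finset.mem_insert_of_mem ht))
      (fun t ht => hd t (Finset.mem_insert_of_mem ht))
    have hopen : IsOpen (W ∩ Metric.ball f ε ∩ ⋂ t ∈ S, O t) := by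
      refine (hW.inter Metric.isOpen_ball).inter ?_
      exact isOpen_biInter_finset fun t ht => hO t (Finset.mem_insert_of_mem ht)
    have hmem : f1 ∈ W ∩ Metric.ball f ε ∩ ⋂ t ∈ S, O t := ⟨⟨h1, h2⟩, by
      rw [mem_iInter₂]
      exact h3⟩
    obtain ⟨η, hη, hball⟩ := Metric.isOpen_iff.1 hopen f1 hmem
    obtain ⟨f2, h4, h5⟩ := hd s (Finset.mem_insert_self s S) f1 h1 η hη
    have h6 := hball (Metric.mem_ball.2 h5)
    refine ⟨f2, h6.1.1, h6.1.2, fun t ht => ?_⟩
    rcases Finset.mem_insert.1 ht with rfl | ht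
    · exact h4
    · have := h6.2
      rw [mem_iInter₂] at this
      exact this t ht

end Pool.Agent.H72.Zp
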