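import Mathlib
import Pool.Agent.H72.Zp.Defs

set_option autoImplicit false

/-!
# Grids in the square
-/

namespace Pool.Agent.H72.Zp

open Set Topology TopologicalSpace unitInterval Filter

/-- Cut off at `0` and `1`. -/
noncomputable def cl (x : ℝ) : ℝ := max 0 (min x 1)

theorem cl_continuous : Continuous cl := continuous_const.max (continuous_id.min continuous_const)

theorem cl_of_nonpos {x : ℝ} (h : x ≤ 0) : cl x = 0 := by
  unfold cl
  rw [min_eq_left (by linarith), max_eq_left h]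

theorem cl_of_one_le {x : ℝ} (h : 1 ≤ x) : cl x = 1 := by
  unfold cl
  rw [min_eq_right h, max_eq_right zero_le_one]

theorem cl_mem (x : ℝ) : 0 ≤ cl x ∧ cl x ≤ 1 :=
  ⟨le_max_left _ _, max_le zero_le_one (min_le_right _ _)⟩

/-- The one-dimensional profile: `0` for `s ≤ 0`, `1 / 2` on `[κ, 1 - κ]`, `1` for `s ≥ 1`. -/
noncomputable def sg (κ s : ℝ) : ℝ := (cl (s / κ) + cl ((s - 1 + κ) / κ)) / 2

theorem sg_continuous (κ : ℝ) : Continuous (sg κ) := by
  unfold sg
  refine Continuous.div_const (Continuous.add ?_ ?_) _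
  · exact cl_continuous.comp (continuous_id.div_const _)
  · exact cl_continuous.comp (((continuous_id.sub continuous_const).add continuous_const).div_const _)

theorem sg_of_nonpos {κ s : ℝ} (h0 : 0 < κ) (h1 : κ ≤ 1) (hs : s ≤ 0) : sg κ s = 0 := by
  unfold sg
  rw [cl_of_nonpos (div_nonpos_of_nonpos_of_nonneg hs h0.le),
    cl_of_nonpos (div_nonpos_of_nonpos_of_nonneg (by linarith) h0.le)]
  norm_num

theorem sg_of_one_le {κ s : ℝ} (h0 : 0 < κ) (h1 : κ ≤ 1) (hs : 1 ≤ s) : sg κ s = 1 := by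
  unfold sg
  rw [cl_of_one_le ((one_le_div h0).2 (by linarith)), cl_of_one_le ((one_le_div h0).2 (by linarith))]
  norm_num

theorem sg_mid {κ s : ℝ} (h0 : 0 < κ) (h1 : κ ≤ s) (h2 : s ≤ 1 - κ) : sg κ s = 1 / 2 := by
  unfold sg
  rw [cl_of_one_le ((one_le_div h0).2 h1),
    cl_of_nonpos (div_nonpos_of_nonpos_of_nonneg (by linarith) h0.le)]
  norm_num

theorem sg_mem (κ s : ℝ) : 0 ≤ sg κ s ∧ sg κ s ≤ 1 := by
  unfold sg
  have h1 := cl_mem (s / κ)
  have h2 := cl_mem ((s - 1 + κ) / κ)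
  constructor <;> linarith

/-- The sum of the profiles. -/
noncomputable def rs (n : ℕ) (κ x : ℝ) : ℝ := ∑ k ∈ Finset.range n, sg κ (x - k)

theorem rs_continuous (n : ℕ) (κ : ℝ) : Continuous (rs n κ) := by
  unfold rs
  exact continuous_finsetSum _ fun k _ => (sg_continuous κ).comp (continuous_id.sub continuous_const)

theorem rs_eq {n : ℕ} {κ x : ℝ} (h0 : 0 < κ) (h1 : κ ≤ 1) {j : ℕ} (hj : j < n) (hx0 : (j : ℝ) ≤ x)
    (hx1 : x ≤ j + 1) : rs n κ x = j + sg κ (x - j) := by
  have key : ∀ m : ℕ, ∑ k ∈ Finset.range m, sg κ (x - k) =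
      if m ≤ j then (m : ℝ) else j + sg κ (x - j) := by
    intro m
    induction m with
    | zero => simp
    | succ m ih =>
      rw [Finset.sum_range_succ, ih]
      rcases lt_trichotomy m j with h | h | h
      · rw [if_pos h.le, if_pos (by omega)]
        have : (m : ℝ) + 1 ≤ j := by exact_mod_cast h
        rw [sg_of_one_le h0 h1 (by linarith)]
        push_cast
        ring
      · subst h
        rw [if_pos le_rfl, if_neg (by omega)]
      · rw [if_neg (by omega), if_neg (by omega)]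
        have : (j : ℝ) + 1 ≤ m := by exact_mod_cast h
        rw [sg_of_nonpos (s := x - m) h0 h1 (by linarith), add_zero]
  unfold rs
  rw [key n, if_neg (by omega)]

/-- The closed squares of the grid. -/
def sq (n : ℕ) (p : Fin 2 → Fin n) : Set (Cube 2) :=
  {z | ∀ i, ((p i : ℕ) : ℝ) ≤ n * (z i : ℝ) ∧ n * (z i : ℝ) ≤ ((p i : ℕ) : ℝ) + 1}

theorem sq_isClosed (n : ℕ) (p : Fin 2 → Fin n) : IsClosed (sq n p) := by
  have hc : ∀ i : Fin 2, Continuous fun z : Cube 2 => (n : ℝ) * (z i : ℝ) := fun i => by fun_prop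
  have h : sq n p = ⋂ i, ({z : Cube 2 | ((p i : ℕ) : ℝ) ≤ n * (z i : ℝ)} ∩
      {z : Cube 2 | n * (z i : ℝ) ≤ ((p i : ℕ) : ℝ) + 1}) := by
    ext z
    rw [mem_iInter]
    exact Iff.rfl
  rw [h]
  refine isClosed_iInter fun i => IsClosed.inter ?_ ?_
  · exact isClosed_le continuous_const (hc i)
  · exact isClosed_le (hc i) continuous_const

theorem exists_sq {n : ℕ} (hn : 0 < n) (z : Cube 2) : ∃ p, z ∈ sq n p := by
  have hn' : (0 : ℝ) < n := by exact_mod_cast hn
  have h : ∀ i : Fin 2, ∃ q : Fin n, ((q : ℕ) : ℝ) ≤ n * (z i : ℝ) ∧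
      n * (z i : ℝ) ≤ ((q : ℕ) : ℝ) + 1 := by
    intro i
    have h0 : (0 : ℝ) ≤ n * (z i : ℝ) := mul_nonneg hn'.le (z i).2.1
    have h1 : n * (z i : ℝ) ≤ n := by
      have := mul_le_mul_of_nonneg_left (z i).2.2 hn'.le
      rwa [mul_one] at this
    by_cases hlt : ⌊n * (z i : ℝ)⌋₊ < n
    · refine ⟨⟨⌊n * (z i : ℝ)⌋₊, hlt⟩, Nat.floor_le h0, (Nat.lt_floor_add_one _).le⟩
    · push Not at hlt
      have h2 : (n : ℝ) ≤ n * (z i : ℝ) := (Nat.cast_le.2 hlt).trans (Nat.floor_le h0)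
      refine ⟨⟨n - 1, by omega⟩, ?_, ?_⟩
      · simp only
        have : ((n - 1 : ℕ) : ℝ) ≤ n := by exact_mod_cast Nat.sub_le n 1
        linarith
      · simp only
        rw [Nat.cast_sub hn]
        push_cast
        linarith
  choose q hq using h
  exact ⟨q, hq⟩

theorem dist_sq {n : ℕ} (hn : 0 < n) {p : Fin 2 → Fin n} {z w : Cube 2} (hz : z ∈ sq n p)
    (hw : w ∈ sq n p) : dist z w ≤ 1 / n := by
  have hn' : (0 : ℝ) < n := by exact_mod_cast hn
  rw [dist_pi_le_iff (by positivity)]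
  intro i
  rw [Subtype.dist_eq, Real.dist_eq, le_div_iff₀ hn']
  have h1 := hz i
  have h2 := hw i
  have e1 : |(z i : ℝ) - (w i : ℝ)| * n = |n * (z i : ℝ) - n * (w i : ℝ)| := by
    rw [← mul_sub, abs_mul, abs_of_pos hn', mul_comm]
  rw [e1, abs_le]
  constructor <;> linarith [h1.1, h1.2, h2.1, h2.2]

/-- The grid point `(k + s) / n`. -/
noncomputable def gp (n k : ℕ) (s : ℝ) : unitInterval := projIcc 0 1 zero_le_one ((k + s) / n)

theorem gp_coe {n k : ℕ} (hk : k < n) {s : ℝ} (h0 : 0 ≤ s) (h1 : s ≤ 1) :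
    n * (gp n k s : ℝ) = k + s := by
  have hn : 0 < n := by omega
  have hn' : (0 : ℝ) < n := by exact_mod_cast hn
  have hk' : (k : ℝ) + 1 ≤ n := by exact_mod_cast hk
  unfold gp
  rw [projIcc_of_mem zero_le_one ⟨by positivity, by rw [div_le_one hn']; linarith⟩]
  simp only
  field_simp

/-- The parametrised edges of the squares. -/
noncomputable def edge (n : ℕ) (p : Fin 2 → Fin n) (i : Fin 2) (b : Bool) (t : unitInterval) :
    Cube 2 :=
  fun j => if j = i then gp n (p i) (if b then 1 else 0) else gp n (p j) t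

theorem edge_isClosedEmbedding {n : ℕ} (p : Fin 2 → Fin n) (i : Fin 2) (b : Bool) :
    IsClosedEmbedding (edge n p i b) := by
  refine Continuous.isClosedEmbedding ?_ ?_
  · refine continuous_pi fun j => ?_
    unfold edge
    split_ifs
    · exact continuous_const
    · exact continuous_const
    · unfold gp
      exact continuous_projIcc.comp
        ((continuous_const.add continuous_subtype_val).div_const _)
  · intro t t' h
    obtain ⟨j, hj⟩ : ∃ j : Fin 2, j ≠ i := exists_ne i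
    have h1 := congrFun h j
    unfold edge at h1
    rw [if_neg hj, if_neg hj] at h1
    have e1 := gp_coe (p j).2 t.2.1 t.2.2
    have e2 := gp_coe (p j).2 t'.2.1 t'.2.2
    rw [h1, e2] at e1
    apply Subtype.ext
    linarith

theorem edge_mem {n : ℕ} (p : Fin 2 → Fin n) (i : Fin 2) (b : Bool) (t : unitInterval) :
    edge n p i b t ∈ sq n p := by
  intro j
  unfold edge
  by_cases hj : j = i
  · rw [if_pos hj]
    subst hj
    rw [gp_coe (p j).2 (by split_ifs <;> norm_num) (by split_ifs <;> norm_num)]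
    split_ifs <;> constructor <;> linarith
  · rw [if_neg hj, gp_coe (p j).2 t.2.1 t.2.2]
    have := t.2.1
    have := t.2.2
    constructor <;> linarith

/-- Points of a square near its boundary are near an edge. -/
theorem near_edge {n : ℕ} (hn : 0 < n) {p : Fin 2 → Fin n} {z : Cube 2} (hz : z ∈ sq n p)
    {κ : ℝ} (i : Fin 2)
    (h : n * (z i : ℝ) < ((p i : ℕ) : ℝ) + κ ∨ ((p i : ℕ) : ℝ) + 1 - κ < n * (z i : ℝ)) :
    ∃ (b : Bool) (t : unitInterval), dist z (edge n p i b t) < κ / n := by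
  have hn' : (0 : ℝ) < n := by exact_mod_cast hn
  have key : ∀ b : Bool, |n * (z i : ℝ) - (((p i : ℕ) : ℝ) + if b then 1 else 0)| < κ →
      ∃ t : unitInterval, dist z (edge n p i b t) < κ / n := by
    intro b hb
    have hκ : 0 < κ := lt_of_le_of_lt (abs_nonneg _) hb
    obtain ⟨j, hj⟩ : ∃ j : Fin 2, j ≠ i := exists_ne i
    refine ⟨⟨n * (z j : ℝ) - (p j : ℕ), by linarith [(hz j).1], by linarith [(hz j).2]⟩, ?_⟩
    rw [dist_pi_lt_iff (by positivity)]
    intro l
    rw [Subtype.dist_eq, Real.dist_eq, lt_div_iff₀ hn']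
    have e1 : ∀ x y : ℝ, |x - y| * n = |n * x - n * y| := by
      intro x y
      rw [← mul_sub, abs_mul, abs_of_pos hn', mul_comm]
    rw [e1]
    unfold edge
    by_cases hl : l = i
    · subst hl
      rw [if_pos rfl, gp_coe (p l).2 (by split_ifs <;> norm_num) (by split_ifs <;> norm_num)]
      exact hb
    · have hlj : l = j := by omega
      subst hlj
      rw [if_neg hl, gp_coe (p l).2]
      · simp only [add_sub_cancel, sub_self, abs_zero]
        exact hκ
      · simp only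
        linarith [(hz l).1]
      · simp only
        linarith [(hz l).2]
  have h1 := hz i
  rcases h with h | h
  · obtain ⟨t, ht⟩ := key false (by
      simp only [Bool.false_eq_true, if_false, add_zero]
      rw [abs_lt]
      constructor <;> linarith)
    exact ⟨false, t, ht⟩
  · obtain ⟨t, ht⟩ := key true (by
      simp only [if_true]
      rw [abs_lt]
      constructor <;> linarith)
    exact ⟨true, t, ht⟩

/-- The centre of a square. -/
noncomputable def ctr (n : ℕ) (p : Fin 2 → Fin n) : Cube 2 := fun i => gp n (p i) (1 / 2)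

theorem ctr_mem {n : ℕ} (p : Fin 2 → Fin n) : ctr n p ∈ sq n p := by
  intro i
  unfold ctr
  rw [gp_coe (p i).2 (by norm_num) (by norm_num)]
  constructor <;> linarith

/-- The map which contracts the squares to their centres, away from the boundary. -/
noncomputable def Rm (n : ℕ) (κ : ℝ) : C(Cube 2, Cube 2) :=
  ⟨fun z i => projIcc 0 1 zero_le_one (rs n κ (n * (z i : ℝ)) / n), by
    refine continuous_pi fun i => continuous_projIcc.comp (Continuous.div_const ?_ _)
    have hc : Continuous fun z : Cube 2 => (n : ℝ) * (z i : ℝ) := by fun_prop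
    exact (rs_continuous n κ).comp hc⟩

theorem Rm_coe {n : ℕ} (hn : 0 < n) {κ : ℝ} (h0 : 0 < κ) (h1 : κ ≤ 1) {p : Fin 2 → Fin n}
    {z : Cube 2} (hz : z ∈ sq n p) (i : Fin 2) :
    n * (Rm n κ z i : ℝ) = ((p i : ℕ) : ℝ) + sg κ (n * (z i : ℝ) - ((p i : ℕ) : ℝ)) := by
  have hn' : (0 : ℝ) < n := by exact_mod_cast hn
  have h2 := rs_eq h0 h1 (p i).2 (hz i).1 (hz i).2
  have h3 := sg_mem κ (n * (z i : ℝ) - ((p i : ℕ) : ℝ))
  have h4 : (((p i : ℕ) : ℝ)) + 1 ≤ n := by exact_mod_cast (p i).2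
  have h5 : (0 : ℝ) ≤ ((p i : ℕ) : ℝ) := Nat.cast_nonneg _
  simp only [Rm, ContinuousMap.coe_mk]
  rw [h2, projIcc_of_mem zero_le_one ⟨by
    apply div_nonneg _ hn'.le
    linarith, by
    rw [div_le_one hn']
    linarith⟩]
  simp only
  field_simp

theorem Rm_mem {n : ℕ} (hn : 0 < n) {κ : ℝ} (h0 : 0 < κ) (h1 : κ ≤ 1) {p : Fin 2 → Fin n}
    {z : Cube 2} (hz : z ∈ sq n p) : Rm n κ z ∈ sq n p := by
  intro i
  rw [Rm_coe hn h0 h1 hz i]
  have h3 := sg_mem κ (n * (z i : ℝ) - ((p i : ℕ) : ℝ))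
  constructor <;> linarith

theorem Rm_ctr {n : ℕ} (hn : 0 < n) {κ : ℝ} (h0 : 0 < κ) (h1 : κ ≤ 1) {p : Fin 2 → Fin n}
    {z : Cube 2} (hz : z ∈ sq n p)
    (h : ∀ i, ((p i : ℕ) : ℝ) + κ ≤ n * (z i : ℝ) ∧ n * (z i : ℝ) ≤ ((p i : ℕ) : ℝ) + 1 - κ) :
    Rm n κ z = ctr n p := by
  have hn' : (0 : ℝ) < n := by exact_mod_cast hn
  funext i
  apply Subtype.ext
  have e1 := Rm_coe hn h0 h1 hz i
  rw [sg_mid h0 (by linarith [(h i).1]) (by linarith [(h i).2])] at e1
  have e2 : n * (ctr n p i : ℝ) = ((p i : ℕ) : ℝ) + 1 / 2 :=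
    gp_coe (p i).2 (by norm_num) (by norm_num)
  rw [← e2] at e1
  exact mul_left_cancel₀ hn'.ne' e1

end Pool.Agent.H72.Zp
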