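import Mathlib
import Pool.Agent.H72.Zp.Edge
import Pool.Agent.H72.Zp.Grid

set_option autoImplicit false

/-!
# The point `e (a, b)` is a `Z_2`-point if `a` does not separate locally and `b` is not isolated
-/

namespace Pool.Agent.H72.Zp

open Set Topology TopologicalSpace unitInterval Filter

universe u

/-- The mixed coordinates. -/
noncomputable def mix {X A B : Type*} [Nonempty (A × B)] (e : A × B → X) (q q' : X) : X :=
  e ((Function.invFun e q).1, (Function.invFun e q').2)

theorem mix_continuousOn {X A B : Type*} [TopologicalSpace X] [TopologicalSpace A]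
    [TopologicalSpace B] [Nonempty (A × B)] {e : A × B → X} (he : IsOpenEmbedding e) :
    ContinuousOn (fun q : X × X => mix e q.1 q.2) (range e ×ˢ range e) := by
  have h1 : ContinuousOn (fun q : X × X => Function.invFun e q.1) (range e ×ˢ range e) :=
    (continuousOn_invFun he).comp continuous_fst.continuousOn fun q hq => hq.1
  have h2 : ContinuousOn (fun q : X × X => Function.invFun e q.2) (range e ×ˢ range e) :=
    (continuousOn_invFun he).comp continuous_snd.continuousOn fun q hq => hq.2
  exact he.continuous.comp_continuousOn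
    ((continuous_fst.comp_continuousOn h1).prodMk (continuous_snd.comp_continuousOn h2))

theorem mix_self {X A B : Type*} [TopologicalSpace X] [TopologicalSpace A]
    [TopologicalSpace B] [Nonempty (A × B)] {e : A × B → X} (he : IsOpenEmbedding e) {q : X}
    (hq : q ∈ range e) : mix e q q = q := by
  obtain ⟨p, rfl⟩ := hq
  unfold mix
  rw [Function.leftInverse_invFun he.injective p]

theorem mix_unif {X A B : Type*} [MetricSpace X] [TopologicalSpace A]
    [TopologicalSpace B] [Nonempty (A × B)] {e : A × B → X} (he : IsOpenEmbedding e) {L : Set X}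
    (hL : IsCompact L) (hLe : L ⊆ range e) {η : ℝ} (hη : 0 < η) :
    ∃ δ > 0, ∀ q ∈ L, ∀ q' ∈ L, dist q q' < δ → dist (mix e q q') q < η := by
  have hc : ContinuousOn (fun q : X × X => mix e q.1 q.2) (L ×ˢ L) :=
    (mix_continuousOn he).mono (prod_mono hLe hLe)
  have hu := (hL.prod hL).uniformContinuousOn_of_continuous hc
  rw [Metric.uniformContinuousOn_iff] at hu
  obtain ⟨δ, hδ, h⟩ := hu η hη
  refine ⟨δ, hδ, fun q hq q' hq' hd => ?_⟩
  have h1 := h (q, q') ⟨hq, hq'⟩ (q, q) ⟨hq, hq⟩ (by
    rw [Prod.dist_eq]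
    simp only [dist_self]
    rw [max_lt_iff]
    exact ⟨hδ, by rwa [dist_comm]⟩)
  simp only at h1
  rwa [mix_self he (hLe hq)] at h1

theorem isZPoint_of_nonSep {X : Type u} [MetricSpace X] [CompactSpace X] (hX : CompactAR X)
    {A B : Type*} [TopologicalSpace A] [TopologicalSpace B] {e : A × B → X}
    (he : IsOpenEmbedding e) {a : A} {b : B} (hcla : IsClosed ({a} : Set A))
    (hclb : IsClosed ({b} : Set B)) (ha : NonSep a) (hb : ¬ IsOpen ({b} : Set B)) :
    IsZPoint 2 (e (a, b)) := by
  classical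
  have hne : Nonempty X := ⟨e (a, b)⟩
  have hneP : Nonempty (A × B) := ⟨(a, b)⟩
  have hπe : ∀ p, Function.invFun e (e p) = p := Function.leftInverse_invFun he.injective
  intro U hU f
  -- Lebesgue number of the cover
  obtain ⟨ε, hε, hleb⟩ := lebesgue_number_lemma_of_metric_sUnion (s := (univ : Set X))
    isCompact_univ hU.1 (by rw [hU.2])
  -- the chart contains a closed ball
  obtain ⟨r, hr, hrball⟩ := Metric.isOpen_iff.1 he.isOpen_range (e (a, b)) ⟨_, rfl⟩
  set L : Set X := Metric.closedBall (e (a, b)) (r / 2) with hL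
  have hLc : IsCompact L := isCompact_closedBall _ _
  have hLe : L ⊆ range e := fun x hx => hrball (by
    rw [Metric.mem_ball]
    rw [hL, Metric.mem_closedBall] at hx
    linarith)
  -- the constants
  have hη : 0 < min (ε / 2) (r / 16) := lt_min (by positivity) (by positivity)
  obtain ⟨δ1, hδ1, hext⟩ := perturbation_extension hX hη
  obtain ⟨δ2, hδ2, hmix⟩ := mix_unif he hLc hLe hδ1
  set δ3 : ℝ := min (δ2 / 3) (min (r / 16) (ε / 2)) with hδ3
  have hδ3p : 0 < δ3 := lt_min (by positivity) (lt_min (by positivity) (by positivity))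
  have hδ32 : δ3 ≤ δ2 / 3 := min_le_left _ _
  have hδ3r : δ3 ≤ r / 16 := (min_le_right _ _).trans (min_le_left _ _)
  have hδ3e : δ3 ≤ ε / 2 := (min_le_right _ _).trans (min_le_right _ _)
  -- the grid
  have hfu := CompactSpace.uniformContinuous_of_continuous f.continuous
  rw [Metric.uniformContinuous_iff] at hfu
  obtain ⟨ρ, hρ, hfρ⟩ := hfu δ3 hδ3p
  obtain ⟨n, hn⟩ := exists_nat_gt (1 / ρ)
  have hn0 : 0 < n := by
    have : (0 : ℝ) < n := lt_trans (by positivity) hn
    exact_mod_cast this
  have hn' : (0 : ℝ) < n := by exact_mod_cast hn0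
  have hnρ : 1 / (n : ℝ) < ρ := by
    rw [div_lt_comm₀ hn' hρ]
    exact hn
  have hfsq : ∀ p z w, z ∈ sq n p → w ∈ sq n p → dist (f z) (f w) < δ3 := fun p z w hz hw =>
    hfρ ((dist_sq hn0 hz hw).trans_lt hnρ)
  -- the squares near the point
  set P : Finset (Fin 2 → Fin n) :=
    Finset.univ.filter fun p => ∃ z ∈ sq n p, dist (f z) (e (a, b)) < r / 4 with hP
  have hPsq : ∀ p ∈ P, ∀ z ∈ sq n p, dist (f z) (e (a, b)) < r / 4 + δ3 := by
    intro p hp z hz
    rw [hP, Finset.mem_filter] at hp
    obtain ⟨-, w, hw, hwd⟩ := hp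
    have h1 := hfsq p z w hz hw
    have h2 := dist_triangle (f z) (f w) (e (a, b))
    linarith
  -- the open set of maps
  set W : Set C(Cube 2, X) :=
    ⋂ p ∈ P, {h : C(Cube 2, X) | MapsTo h (sq n p) (Metric.ball (e (a, b)) (r / 2))} with hW
  have hWo : IsOpen W := isOpen_biInter_finset fun p _ =>
    ContinuousMap.isOpen_setOfPred_mapsTo (sq_isClosed n p).isCompact Metric.isOpen_ball
  have hfW : f ∈ W := by
    rw [hW, mem_iInter₂]
    intro p hp z hz
    have := hPsq p hp z hz
    rw [Metric.mem_ball]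
    linarith
  -- the compact sets to be avoided
  have hLpre : IsCompact (e ⁻¹' L) := by
    rw [← he.isInducing.isCompact_preimage_iff hLe] at hLc
    exact hLc
  have hCa : IsClosed (e '' (e ⁻¹' L ∩ {p | p.1 = a})) := by
    refine IsCompact.isClosed (IsCompact.image ?_ he.continuous)
    refine hLpre.inter_right ?_
    have : {p : A × B | p.1 = a} = Prod.fst ⁻¹' {a} := rfl
    rw [this]
    exact hcla.preimage continuous_fst
  have hCb : IsClosed (e '' (e ⁻¹' L ∩ {p | p.2 = b})) := by
    refine IsCompact.isClosed (IsCompact.image ?_ he.continuous)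
    refine hLpre.inter_right ?_
    have : {p : A × B | p.2 = b} = Prod.snd ⁻¹' {b} := rfl
    rw [this]
    exact hclb.preimage continuous_snd
  set Ca := e '' (e ⁻¹' L ∩ {p | p.1 = a}) with hCa'
  set Cb := e '' (e ⁻¹' L ∩ {p | p.2 = b}) with hCb'
  -- general position on the edges
  obtain ⟨f0, hf0W, hf0d, hf0⟩ := finite_gp
    (P ×ˢ (Finset.univ : Finset (Fin 2 × Bool)))
    (fun s => {h : C(Cube 2, X) | MapsTo h (range (edge n s.1 s.2.1 s.2.2)) Caᶜ}) hWo
    (fun s _ => ContinuousMap.isOpen_setOfPred_mapsTo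
      (isCompact_range (edge_isClosedEmbedding s.1 s.2.1 s.2.2).continuous) hCa.isOpen_compl)
    (by
      rintro ⟨p, i, c⟩ hs h hh η hη'
      rw [Finset.mem_product] at hs
      rw [hW, mem_iInter₂] at hh
      have hr' : ∀ t, h (edge n p i c t) ∈ range e := fun t => by
        have := hh p hs.1 (edge_mem p i c t)
        rw [Metric.mem_ball] at this
        exact hrball (Metric.mem_ball.2 (by linarith))
      obtain ⟨h', h1, h2⟩ := edge_lemma hX he hcla ha (edge_isClosedEmbedding p i c) h hr'
        (half_pos hη')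
      refine ⟨h', ?_, ?_⟩
      · rintro _ ⟨t, rfl⟩ hmem
        obtain ⟨q, ⟨-, hq⟩, hqe⟩ := hmem
        exact h2 t q hqe.symm hq
      · refine lt_of_le_of_lt ?_ (half_lt_self hη')
        exact (ContinuousMap.dist_le (half_pos hη').le).2 fun z => (h1 z).le)
    hfW (half_pos hδ3p)
  -- general position at the centres
  have hW2o : IsOpen (W ∩ ⋂ s ∈ P ×ˢ (Finset.univ : Finset (Fin 2 × Bool)),
      {h : C(Cube 2, X) | MapsTo h (range (edge n s.1 s.2.1 s.2.2)) Caᶜ}) :=
    hWo.inter (isOpen_biInter_finset fun s _ => ContinuousMap.isOpen_setOfPred_mapsTo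
      (isCompact_range (edge_isClosedEmbedding s.1 s.2.1 s.2.2).continuous) hCa.isOpen_compl)
  obtain ⟨f1, hf1W, hf1d, hf1⟩ := finite_gp P
    (fun p => {h : C(Cube 2, X) | MapsTo h {ctr n p} Cbᶜ}) hW2o
    (fun p _ => ContinuousMap.isOpen_setOfPred_mapsTo isCompact_singleton hCb.isOpen_compl)
    (by
      rintro p hp h ⟨hh, -⟩ η hη'
      rw [hW, mem_iInter₂] at hh
      have hr' : h (ctr n p) ∈ range e := by
        have := hh p hp (ctr_mem p)
        rw [Metric.mem_ball] at this
        exact hrball (Metric.mem_ball.2 (by linarith))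
      obtain ⟨h', h1, h2⟩ := center_lemma hX he hb (ctr n p) h hr' (half_pos hη')
      refine ⟨h', ?_, ?_⟩
      · rintro z hz hmem
        rw [mem_singleton_iff] at hz
        subst hz
        obtain ⟨q, ⟨-, hq⟩, hqe⟩ := hmem
        exact h2 q hqe.symm hq
      · refine lt_of_le_of_lt ?_ (half_lt_self hη')
        exact (ContinuousMap.dist_le (half_pos hη').le).2 fun z => (h1 z).le)
    (f := f0) ⟨hf0W, by rw [mem_iInter₂]; exact hf0⟩ (half_pos hδ3p)
  obtain ⟨hf1W, hf1e⟩ := hf1W
  rw [mem_iInter₂] at hf1e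
  rw [hW, mem_iInter₂] at hf1W
  have hf1f : ∀ z, dist (f1 z) (f z) < δ3 := by
    intro z
    have h1 := ContinuousMap.dist_apply_le_dist (f := f1) (g := f0) z
    have h2 := ContinuousMap.dist_apply_le_dist (f := f0) (g := f) z
    have h3 := dist_triangle (f1 z) (f0 z) (f z)
    linarith
  -- the width of the collar
  obtain ⟨γ, hγ, hγ'⟩ := exists_eps_of_compact
    (K := ⋃ s ∈ P ×ˢ (Finset.univ : Finset (Fin 2 × Bool)), range (edge n s.1 s.2.1 s.2.2))
    (U := f1 ⁻¹' Caᶜ)
    (Finset.isCompact_biUnion _ fun s _ =>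
      isCompact_range (edge_isClosedEmbedding s.1 s.2.1 s.2.2).continuous)
    (hCa.isOpen_compl.preimage f1.continuous)
    (by
      intro z hz
      rw [mem_iUnion₂] at hz
      obtain ⟨s, hs, hz⟩ := hz
      exact hf1e s hs hz)
  set κ : ℝ := min (1 / 2) (n * γ) with hκ
  have hκ0 : 0 < κ := lt_min (by norm_num) (by positivity)
  have hκ1 : κ ≤ 1 := (min_le_left _ _).trans (by norm_num)
  have hκn : κ / n ≤ γ := by
    rw [div_le_iff₀ hn', mul_comm]
    exact min_le_right _ _
  -- the union of the squares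
  set T : Set (Cube 2) := ⋃ p ∈ P, sq n p with hT
  have hTc : IsClosed T := isClosed_biUnion_finset fun p _ => sq_isClosed n p
  have hTball : ∀ z ∈ T, f1 z ∈ L ∧ f1 (Rm n κ z) ∈ L ∧ dist (f1 z) (f1 (Rm n κ z)) < δ2 := by
    intro z hz
    rw [hT, mem_iUnion₂] at hz
    obtain ⟨p, hp, hz⟩ := hz
    have hRz := Rm_mem hn0 hκ0 hκ1 hz
    have h1 := hf1W p hp hz
    have h2 := hf1W p hp hRz
    refine ⟨Metric.ball_subset_closedBall h1, Metric.ball_subset_closedBall h2, ?_⟩
    have h3 := hfsq p _ _ hz hRz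
    have h4 := hf1f z
    have h5 := hf1f (Rm n κ z)
    have h6 := dist_triangle4 (f1 z) (f z) (f (Rm n κ z)) (f1 (Rm n κ z))
    rw [dist_comm (f1 (Rm n κ z))] at h5
    linarith
  have hg1c : Continuous fun z : T => mix e (f1 z) (f1 (Rm n κ z)) := by
    refine (mix_continuousOn he).comp_continuous (f := fun z : T => (f1 z, f1 (Rm n κ z))) ?_ ?_
    · exact (f1.continuous.comp continuous_subtype_val).prodMk
        (f1.continuous.comp ((Rm n κ).continuous.comp continuous_subtype_val))
    · intro z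
      obtain ⟨h1, h2, -⟩ := hTball z z.2
      exact ⟨hLe h1, hLe h2⟩
  obtain ⟨g, hgT, hgd⟩ := hext (Subtype.val : T → Cube 2) hTc.isClosedEmbedding_subtypeVal f1
    ⟨_, hg1c⟩ (by
      intro z
      obtain ⟨h1, h2, h3⟩ := hTball z z.2
      exact (hmix _ h1 _ h2 h3).le)
  have hgf : ∀ z, dist (g z) (f z) < ε := by
    intro z
    have h1 := hgd z
    have h2 := hf1f z
    have h3 := dist_triangle (g z) (f1 z) (f z)
    have h4 : min (ε / 2) (r / 16) ≤ ε / 2 := min_le_left _ _
    linarith
  refine ⟨g, fun z => ?_, fun z hz => ?_⟩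
  · obtain ⟨u, hu, hball⟩ := hleb (f z) (mem_univ _)
    exact ⟨u, hu, hball (Metric.mem_ball_self hε), hball (Metric.mem_ball.2 (hgf z))⟩
  · obtain ⟨p, hp⟩ := exists_sq hn0 z
    by_cases hpP : p ∈ P
    · have hzT : z ∈ T := by
        rw [hT, mem_iUnion₂]
        exact ⟨p, hpP, hp⟩
      have h1 := hgT ⟨z, hzT⟩
      simp only [ContinuousMap.coe_mk] at h1
      rw [h1] at hz
      obtain ⟨hL1, hL2, -⟩ := hTball z hzT
      unfold mix at hz
      have hinj := he.injective hz
      have hfst : (Function.invFun e (f1 z)).1 = a := congrArg Prod.fst hinj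
      have hsnd : (Function.invFun e (f1 (Rm n κ z))).2 = b := congrArg Prod.snd hinj
      by_cases hnear : ∃ i, n * (z i : ℝ) < ((p i : ℕ) : ℝ) + κ ∨
          ((p i : ℕ) : ℝ) + 1 - κ < n * (z i : ℝ)
      · obtain ⟨i, hi⟩ := hnear
        obtain ⟨c, t, hct⟩ := near_edge hn0 hp i hi
        have hmem : edge n p i c t ∈
            ⋃ s ∈ P ×ˢ (Finset.univ : Finset (Fin 2 × Bool)), range (edge n s.1 s.2.1 s.2.2) := by
          rw [mem_iUnion₂]
          exact ⟨(p, i, c), Finset.mem_product.2 ⟨hpP, Finset.mem_univ _⟩, t, rfl⟩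
        have h2 := hγ' _ hmem z (hct.trans_le hκn)
        apply h2
        obtain ⟨q, hq⟩ := hLe hL1
        refine ⟨q, ⟨?_, ?_⟩, hq⟩
        · rw [mem_preimage, hq]
          exact hL1
        · rw [← hq, hπe] at hfst
          exact hfst
      · push Not at hnear
        have h2 := Rm_ctr hn0 hκ0 hκ1 hp hnear
        rw [h2] at hsnd hL2
        apply hf1 p hpP rfl
        obtain ⟨q, hq⟩ := hLe hL2
        refine ⟨q, ⟨?_, ?_⟩, hq⟩
        · rw [mem_preimage, hq]
          exact hL2
        · rw [← hq, hπe] at hsnd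
          exact hsnd
    · have h1 : r / 4 ≤ dist (f z) (e (a, b)) := by
        by_contra hcon
        push Not at hcon
        apply hpP
        rw [hP, Finset.mem_filter]
        exact ⟨Finset.mem_univ _, z, hp, hcon⟩
      have h2 := hgd z
      have h3 := hf1f z
      rw [hz, dist_comm] at h2
      rw [dist_comm] at h3
      have h4 := dist_triangle (f z) (f1 z) (e (a, b))
      have h5 : min (ε / 2) (r / 16) ≤ r / 16 := min_le_right _ _
      linarith

end Pool.Agent.H72.Zp
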