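import Mathlib
import Pool.Agent.H72.Zp.NonSepCase

set_option autoImplicit false

/-!
# Points with a product neighbourhood
-/

namespace Pool.Agent.H72.Zp

open Set Topology TopologicalSpace unitInterval Filter

universe u

theorem not_isOpen_swap {A B : Type*} [TopologicalSpace A] [TopologicalSpace B] {X : Type*}
    [TopologicalSpace X] {e : A × B → X} (he : IsOpenEmbedding e) :
    IsOpenEmbedding (e ∘ (Prod.swap : B × A → A × B)) :=
  he.comp (Homeomorph.prodComm B A).isOpenEmbedding

/-- All points of an open set homeomorphic to a product of spaces without isolated points are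
`Z_2`-points. -/
theorem product_zPoint {X : Type u} [MetricSpace X] [CompactSpace X] (hX : CompactAR X)
    (hH : HDD00 X) {A B : Type*} [TopologicalSpace A] [TopologicalSpace B] {e : A × B → X}
    (he : IsOpenEmbedding e) {a : A} {b : B} (ha : ¬ IsOpen ({a} : Set A))
    (hb : ¬ IsOpen ({b} : Set B)) : IsZPoint 2 (e (a, b)) := by
  have hlX : LocallyPathConnectedSpace X := locallyPathConnected hX
  have hlP : LocallyPathConnectedSpace (A × B) := he.locallyPathConnectedSpace
  have hA : Nonempty A := ⟨a⟩
  have hB : Nonempty B := ⟨b⟩
  have hlA : LocallyPathConnectedSpace A :=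
    (isQuotientMap_fst (X := A) (Y := B)).locallyPathConnectedSpace
  have hlB : LocallyPathConnectedSpace B :=
    (isQuotientMap_snd (X := A) (Y := B)).locallyPathConnectedSpace
  have hinj := he.injective
  have e1 : ∀ x, dist (e (x, b)) (e (a, b)) = 0 ↔ x = a := by
    intro x
    rw [dist_eq_zero]
    constructor
    · intro h
      exact congrArg Prod.fst (hinj h)
    · rintro rfl
      rfl
  have e2 : ∀ y, dist (e (a, y)) (e (a, b)) = 0 ↔ y = b := by
    intro y
    rw [dist_eq_zero]
    constructor
    · intro h
      exact congrArg Prod.snd (hinj h)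
    · rintro rfl
      rfl
  have c1 : Continuous fun x : A => dist (e (x, b)) (e (a, b)) :=
    (he.continuous.comp (continuous_id.prodMk continuous_const)).dist continuous_const
  have c2 : Continuous fun y : B => dist (e (a, y)) (e (a, b)) :=
    (he.continuous.comp (continuous_const.prodMk continuous_id)).dist continuous_const
  have hcla : IsClosed ({a} : Set A) := by
    have : ({a} : Set A) = (fun x : A => dist (e (x, b)) (e (a, b))) ⁻¹' {0} := by
      ext x
      rw [mem_preimage, mem_singleton_iff, mem_singleton_iff, e1]
    rw [this]
    exact isClosed_singleton.preimage c1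
  have hclb : IsClosed ({b} : Set B) := by
    have : ({b} : Set B) = (fun y : B => dist (e (a, y)) (e (a, b))) ⁻¹' {0} := by
      ext x
      rw [mem_preimage, mem_singleton_iff, mem_singleton_iff, e2]
    rw [this]
    exact isClosed_singleton.preimage c2
  rcases nonSep_or_sep a ha _ c1 (fun x => dist_nonneg) e1 with h | h
  · exact isZPoint_of_nonSep hX he hcla hclb h hb
  · rcases nonSep_or_sep b hb _ c2 (fun x => dist_nonneg) e2 with h' | h'
    · exact isZPoint_of_nonSep hX (not_isOpen_swap he) (a := b) (b := a) hclb hcla h' ha
    · exact (not_sep_sep hH he h h').elim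

end Pool.Agent.H72.Zp
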