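import Mathlib
import Pool.Agent.H72.Zp.Product

set_option autoImplicit false

/-!
# Local sections of flows, and points moved by a flow
-/

namespace Pool.Agent.H72.Zp

open Set Topology TopologicalSpace unitInterval Filter MeasureTheory

universe u

section

variable {X : Type*} [MetricSpace X] (φ : Flow ℝ X) (x0 : X) (θ : ℝ)

/-- The averaged distance. -/
noncomputable def fpsi (x : X) : ℝ := ∫ s in (0 : ℝ)..θ, dist (φ s x) x0

/-- Its derivative along the flow. -/
noncomputable def fD (y : X) : ℝ := dist (φ θ y) x0 - dist y x0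

theorem flow_continuous2 : Continuous fun q : ℝ × X => φ q.1 q.2 := φ.cont'

theorem flow_continuous_time (x : X) : Continuous fun s : ℝ => φ s x :=
  (flow_continuous2 φ).comp (continuous_id.prodMk continuous_const)

theorem flow_continuous_space (s : ℝ) : Continuous fun x : X => φ s x :=
  (flow_continuous2 φ).comp (continuous_const.prodMk continuous_id)

theorem fpsi_continuous : Continuous (fpsi φ x0 θ) := by
  unfold fpsi
  apply intervalIntegral.continuous_parametric_intervalIntegral_of_continuous'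
  have h : Continuous fun q : X × ℝ => dist (φ q.2 q.1) x0 :=
    ((flow_continuous2 φ).comp (continuous_snd.prodMk continuous_fst)).dist continuous_const
  exact h

theorem fD_continuous : Continuous (fD φ x0 θ) :=
  ((flow_continuous_space φ θ).dist continuous_const).sub (continuous_id.dist continuous_const)

theorem fpsi_sub (x : X) (t t' : ℝ) :
    fpsi φ x0 θ (φ t' x) - fpsi φ x0 θ (φ t x) = ∫ s in t..t', fD φ x0 θ (φ s x) := by
  have hc : Continuous fun s : ℝ => dist (φ s x) x0 :=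
    (flow_continuous_time φ x).dist continuous_const
  have h1 : ∀ t, fpsi φ x0 θ (φ t x) = ∫ s in t..(θ + t), dist (φ s x) x0 := by
    intro t
    unfold fpsi
    have h2 : ∀ s, dist (φ s (φ t x)) x0 = (fun s => dist (φ s x) x0) (s + t) := by
      intro s
      simp only
      rw [φ.map_add]
    simp only [h2]
    rw [intervalIntegral.integral_comp_add_right (fun s => dist (φ s x) x0), zero_add]
  have h3 : ∀ s, fD φ x0 θ (φ s x) = dist (φ (s + θ) x) x0 - dist (φ s x) x0 := by
    intro s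
    unfold fD
    rw [← φ.map_add, add_comm θ s]
  have hc2 : Continuous fun s : ℝ => dist (φ (s + θ) x) x0 :=
    hc.comp (continuous_id.add continuous_const)
  have h4 : ∫ s in t..t', dist (φ (s + θ) x) x0 = ∫ s in (t + θ)..(t' + θ), dist (φ s x) x0 :=
    intervalIntegral.integral_comp_add_right (fun s => dist (φ s x) x0) θ
  simp only [h3]
  rw [intervalIntegral.integral_sub (hc2.intervalIntegrable _ _) (hc.intervalIntegrable _ _), h4,
    h1, h1, intervalIntegral.integral_interval_sub_interval_comm' (hc.intervalIntegrable _ _)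
      (hc.intervalIntegrable _ _) (hc.intervalIntegrable _ _), add_comm t θ, add_comm t' θ]

theorem fpsi_lt {x : X} {t t' : ℝ} (htt : t < t') (h : ∀ s, t ≤ s → s ≤ t' → 0 < fD φ x0 θ (φ s x)) :
    fpsi φ x0 θ (φ t x) < fpsi φ x0 θ (φ t' x) := by
  rw [← sub_pos, fpsi_sub]
  refine intervalIntegral.intervalIntegral_pos_of_pos_on ?_ (fun s hs => h s hs.1.le hs.2.le) htt
  exact ((fD_continuous φ x0 θ).comp (flow_continuous_time φ x)).intervalIntegrable _ _

end

/-- The local section. -/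
theorem exists_flow_box {X : Type*} [MetricSpace X] (φ : Flow ℝ X) {x0 : X} {θ : ℝ}
    (hθ : φ θ x0 ≠ x0) : ∃ (τ : ℝ) (S : Set X), 0 < τ ∧ x0 ∈ S ∧
      IsOpenEmbedding (fun p : S × Ioo (-τ) τ => φ (p.2 : ℝ) (p.1 : X)) := by
  have hD0 : 0 < fD φ x0 θ x0 := by
    unfold fD
    rw [dist_self, sub_zero]
    exact dist_pos.2 hθ
  -- the neighbourhood on which `ψ` increases along the flow
  have hopen : IsOpen {q : ℝ × X | 0 < fD φ x0 θ (φ q.1 q.2)} :=
    isOpen_lt continuous_const ((fD_continuous φ x0 θ).comp (flow_continuous2 φ))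
  obtain ⟨J, V, hJ, hV, h0J, hx0V, hJV⟩ := isOpen_prod_iff.1 hopen 0 x0 (by
    rw [mem_ofPred_eq]
    simp only
    rw [φ.map_zero_apply]
    exact hD0)
  obtain ⟨τ', hτ', hballJ⟩ := Metric.isOpen_iff.1 hJ 0 h0J
  have hDpos : ∀ x ∈ V, ∀ s, |s| < τ' → 0 < fD φ x0 θ (φ s x) := by
    intro x hx s hs
    exact hJV (show (s, x) ∈ J ×ˢ V from ⟨hballJ (by
      rw [Metric.mem_ball, Real.dist_eq, sub_zero]
      exact hs), hx⟩)
  set τ : ℝ := τ' / 2 with hτ
  have hτp : 0 < τ := half_pos hτ'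
  set S : Set X := {x | x ∈ V ∧ fpsi φ x0 θ x = fpsi φ x0 θ x0} with hS
  refine ⟨τ, S, hτp, ⟨hx0V, rfl⟩, ?_⟩
  have hcont : Continuous (fun p : S × Ioo (-τ) τ => φ (p.2 : ℝ) (p.1 : X)) :=
    (flow_continuous2 φ).comp ((continuous_subtype_val.comp continuous_snd).prodMk
      (continuous_subtype_val.comp continuous_fst))
  refine IsOpenEmbedding.of_continuous_injective_isOpenMap hcont ?_ ?_
  · -- injective
    rintro ⟨⟨x, hx⟩, ⟨t, ht⟩⟩ ⟨⟨x', hx'⟩, ⟨t', ht'⟩⟩ h
    simp only at h
    have h1 : φ (t - t') x = x' := by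
      have : t - t' = -t' + t := by ring
      rw [this, φ.map_add, h, ← φ.map_add, neg_add_cancel, φ.map_zero_apply]
    have habs : |t - t'| < τ' := by
      rw [abs_lt]
      constructor <;> linarith [ht.1, ht.2, ht'.1, ht'.2, hτ]
    have h2 : fpsi φ x0 θ (φ (t - t') x) = fpsi φ x0 θ (φ 0 x) := by
      rw [h1, φ.map_zero_apply, hx.2, hx'.2]
    have htt : t - t' = 0 := by
      rcases lt_trichotomy (t - t') 0 with hlt | heq | hgt
      · exfalso
        refine (fpsi_lt φ x0 θ hlt fun s hs1 hs2 => hDpos x hx.1 s ?_).ne h2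
        rw [abs_lt] at habs ⊢
        constructor <;> linarith
      · exact heq
      · exfalso
        refine (fpsi_lt φ x0 θ hgt fun s hs1 hs2 => hDpos x hx.1 s ?_).ne' h2
        rw [abs_lt] at habs ⊢
        constructor <;> linarith
    have hxx : x = x' := by
      rw [htt, φ.map_zero_apply] at h1
      exact h1
    have htt' : t = t' := by linarith
    subst hxx
    subst htt'
    rfl
  · -- open
    rw [isOpenMap_iff_nhds_le]
    rintro ⟨⟨x, hx⟩, ⟨t, ht⟩⟩
    rw [le_map_iff]
    intro O hO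
    rw [nhds_prod_eq, mem_prod_iff] at hO
    obtain ⟨O1, hO1, O2, hO2, hO12⟩ := hO
    rw [mem_nhds_subtype] at hO1 hO2
    obtain ⟨M1, hM1, hM1O⟩ := hO1
    obtain ⟨M2, hM2, hM2O⟩ := hO2
    -- small times
    have hA : ∀ᶠ q : ℝ × X in 𝓝 ((0 : ℝ), x), φ q.1 q.2 ∈ M1 ∧ φ q.1 q.2 ∈ V := by
      have h1 : Tendsto (fun q : ℝ × X => φ q.1 q.2) (𝓝 ((0 : ℝ), x)) (𝓝 x) := by
        have := (flow_continuous2 φ).tendsto ((0 : ℝ), x)
        rwa [φ.map_zero_apply] at this
      exact h1 (inter_mem hM1 (hV.mem_nhds hx.1))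
    have hB : ∀ᶠ r : ℝ in 𝓝 0, t - r ∈ M2 ∧ t - r ∈ Ioo (-τ) τ := by
      have h1 : Tendsto (fun r : ℝ => t - r) (𝓝 0) (𝓝 t) := by
        have hc : Continuous fun r : ℝ => t - r := by fun_prop
        have h2 := hc.tendsto 0
        rwa [sub_zero] at h2
      exact h1 (inter_mem hM2 (isOpen_Ioo.mem_nhds ht))
    rw [nhds_prod_eq] at hA
    obtain ⟨A1, hA1, A2, hA2, hA12⟩ := mem_prod_iff.1 hA
    obtain ⟨ρ1, hρ1, hρA⟩ := Metric.mem_nhds_iff.1 hA1
    obtain ⟨ρ2, hρ2, hρB⟩ := Metric.eventually_nhds_iff.1 hB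
    set ρ : ℝ := min (min ρ1 ρ2) τ' / 2 with hρ
    have hρp : 0 < ρ := half_pos (lt_min (lt_min hρ1 hρ2) hτ')
    have hρ1' : ρ < ρ1 := by
      have : min (min ρ1 ρ2) τ' ≤ ρ1 := (min_le_left _ _).trans (min_le_left _ _)
      linarith
    have hρ2' : ρ < ρ2 := by
      have : min (min ρ1 ρ2) τ' ≤ ρ2 := (min_le_left _ _).trans (min_le_right _ _)
      linarith
    have hρ3' : ρ < τ' := by
      have : min (min ρ1 ρ2) τ' ≤ τ' := min_le_right _ _
      linarith
    have hlow : fpsi φ x0 θ (φ (-ρ) x) < fpsi φ x0 θ x0 := by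
      rw [← hx.2]
      have h1 := fpsi_lt φ x0 θ (x := x) (t := -ρ) (t' := 0) (by linarith) fun s hs1 hs2 =>
        hDpos x hx.1 s (by rw [abs_lt]; constructor <;> linarith)
      rwa [φ.map_zero_apply] at h1
    have hhigh : fpsi φ x0 θ x0 < fpsi φ x0 θ (φ ρ x) := by
      rw [← hx.2]
      have h1 := fpsi_lt φ x0 θ (x := x) (t := 0) (t' := ρ) hρp fun s hs1 hs2 =>
        hDpos x hx.1 s (by rw [abs_lt]; constructor <;> linarith)
      rwa [φ.map_zero_apply] at h1
    have hC : ∀ᶠ x'' in 𝓝 x, fpsi φ x0 θ (φ (-ρ) x'') < fpsi φ x0 θ x0 ∧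
        fpsi φ x0 θ x0 < fpsi φ x0 θ (φ ρ x'') ∧ x'' ∈ A2 := by
      have c1 := (fpsi_continuous φ x0 θ).comp (flow_continuous_space φ (-ρ))
      have c2 := (fpsi_continuous φ x0 θ).comp (flow_continuous_space φ ρ)
      exact (c1.continuousAt.eventually_lt continuousAt_const hlow).and
        ((continuousAt_const.eventually_lt c2.continuousAt hhigh).and hA2)
    have hF : ∀ᶠ y in 𝓝 (φ t x), fpsi φ x0 θ (φ (-ρ) (φ (-t) y)) < fpsi φ x0 θ x0 ∧
        fpsi φ x0 θ x0 < fpsi φ x0 θ (φ ρ (φ (-t) y)) ∧ φ (-t) y ∈ A2 := by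
      have h1 : Tendsto (fun y => φ (-t) y) (𝓝 (φ t x)) (𝓝 x) := by
        have := (flow_continuous_space φ (-t)).tendsto (φ t x)
        rwa [← φ.map_add, neg_add_cancel, φ.map_zero_apply] at this
      exact h1.eventually hC
    filter_upwards [hF] with y hy
    obtain ⟨hy1, hy2, hy3⟩ := hy
    -- the return time
    have hiv := intermediate_value_Icc (by linarith : -ρ ≤ ρ)
      (((fpsi_continuous φ x0 θ).comp (flow_continuous_time φ (φ (-t) y))).continuousOn (s := Icc (-ρ) ρ))
    obtain ⟨r, hr, hr'⟩ := hiv ⟨hy1.le, hy2.le⟩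
    simp only [Function.comp_apply] at hr'
    have hrabs : |r| ≤ ρ := abs_le.2 hr
    have hrA : (r, φ (-t) y) ∈ A1 ×ˢ A2 := ⟨hρA (by
      rw [Metric.mem_ball, Real.dist_eq, sub_zero]
      linarith), hy3⟩
    obtain ⟨hm1, hm2⟩ := hA12 hrA
    simp only at hm1 hm2
    obtain ⟨hm3, hm4⟩ := hρB (show dist r 0 < ρ2 by
      rw [Real.dist_eq, sub_zero]
      linarith)
    refine ⟨(⟨φ r (φ (-t) y), hm2, hr'⟩, ⟨t - r, hm4⟩), hO12 ⟨hM1O hm1, hM2O hm3⟩, ?_⟩
    simp only
    rw [← φ.map_add, ← φ.map_add]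
    have : t - r + r + -t = 0 := by ring
    rw [this, φ.map_zero_apply]

/-- No open subset of a space with the property `HDD` is an open arc. -/
theorem no_open_arc {X : Type*} [MetricSpace X] (hH : HDD00 X) {τ : ℝ} (hτ : 0 < τ)
    {α : Ioo (-τ) τ → X} (hα : IsOpenEmbedding α) : False := by
  have hne : Nonempty (Ioo (-τ) τ) := ⟨⟨0, by constructor <;> linarith⟩⟩
  set β : X → ℝ := fun y => ((Function.invFun α y : Ioo (-τ) τ) : ℝ) with hβ
  have hβα : ∀ t, β (α t) = (t : ℝ) := fun t => by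
    rw [hβ]
    simp only
    rw [Function.leftInverse_invFun hα.injective t]
  have hβc : ContinuousOn β (range α) :=
    continuous_subtype_val.comp_continuousOn (continuousOn_invFun hα)
  -- the two maps
  have hmem : ∀ s : ℝ, 0 ≤ s → s ≤ 1 → τ * (s - 1 / 2) ∈ Ioo (-τ) τ := by
    intro s h0 h1
    constructor <;> nlinarith
  have hmem' : ∀ s : ℝ, 0 ≤ s → s ≤ 1 → -(τ * (s - 1 / 2)) ∈ Ioo (-τ) τ := by
    intro s h0 h1
    constructor <;> nlinarith
  let fa : Cube 1 → Ioo (-τ) τ := fun z => ⟨τ * ((z 0 : ℝ) - 1 / 2), hmem _ (z 0).2.1 (z 0).2.2⟩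
  let ga : Cube 1 → Ioo (-τ) τ := fun z =>
    ⟨-(τ * ((z 0 : ℝ) - 1 / 2)), hmem' _ (z 0).2.1 (z 0).2.2⟩
  have hz : Continuous fun z : Cube 1 => (z 0 : ℝ) := by fun_prop
  have hfa : Continuous fa := by
    refine Continuous.subtype_mk ?_ _
    exact continuous_const.mul (hz.sub continuous_const)
  have hga : Continuous ga := by
    refine Continuous.subtype_mk ?_ _
    exact (continuous_const.mul (hz.sub continuous_const)).neg
  -- the allowed error
  set O : Set (X × ℝ) := {q | q.1 ∈ range α ∧ |β q.1 - q.2| < τ / 4} with hO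
  have hOo : IsOpen O := by
    have h1 : ContinuousOn (fun q : X × ℝ => |β q.1 - q.2|) (Prod.fst ⁻¹' range α) := by
      refine ContinuousOn.abs (ContinuousOn.sub ?_ continuous_snd.continuousOn)
      exact hβc.comp continuous_fst.continuousOn fun q hq => hq
    have h2 := h1.isOpen_inter_preimage (hα.isOpen_range.preimage continuous_fst)
      (isOpen_Iio (a := τ / 4))
    exact h2
  have hCc : IsCompact (range (fun z : Cube 1 => (α (fa z), (fa z : ℝ))) ∪
      range (fun z : Cube 1 => (α (ga z), (ga z : ℝ)))) := by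
    refine IsCompact.union (isCompact_range ?_) (isCompact_range ?_)
    · exact (hα.continuous.comp hfa).prodMk (continuous_subtype_val.comp hfa)
    · exact (hα.continuous.comp hga).prodMk (continuous_subtype_val.comp hga)
  obtain ⟨ε, hε, hεO⟩ := exists_eps_of_compact hCc hOo (by
    rintro q (⟨z, rfl⟩ | ⟨z, rfl⟩)
    · refine ⟨⟨_, rfl⟩, ?_⟩
      simp only
      rw [hβα, sub_self, abs_zero]
      positivity
    · refine ⟨⟨_, rfl⟩, ?_⟩
      simp only
      rw [hβα, sub_self, abs_zero]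
      positivity)
  obtain ⟨f', g', hf, hg, hfg⟩ := hH 1 (ballCover X (ε / 2)) (openCover_ballCover (half_pos hε))
    ⟨fun z => α (fa z), hα.continuous.comp hfa⟩ ⟨fun z => α (ga z), hα.continuous.comp hga⟩
  have h1 : ∀ z, f' z ∈ range α ∧ |β (f' z) - (fa z : ℝ)| < τ / 4 := by
    intro z
    have h2 := dist_of_uHomotopic hf z
    simp only [ContinuousMap.coe_mk] at h2
    exact hεO _ (Or.inl ⟨z, rfl⟩) (f' z, (fa z : ℝ)) (by
      rw [Prod.dist_eq]
      simp only [dist_self]
      rw [max_lt_iff]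
      exact ⟨h2, hε⟩)
  have h1' : ∀ z, g' z ∈ range α ∧ |β (g' z) - (ga z : ℝ)| < τ / 4 := by
    intro z
    have h2 := dist_of_uHomotopic hg z
    simp only [ContinuousMap.coe_mk] at h2
    exact hεO _ (Or.inr ⟨z, rfl⟩) (g' z, (ga z : ℝ)) (by
      rw [Prod.dist_eq]
      simp only [dist_self]
      rw [max_lt_iff]
      exact ⟨h2, hε⟩)
  -- the intermediate value theorem
  have hFc : Continuous fun z => β (f' z) :=
    hβc.comp_continuous f'.continuous fun z => (h1 z).1
  have hGc : Continuous fun z => β (g' z) :=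
    hβc.comp_continuous g'.continuous fun z => (h1' z).1
  have hp : IsPreconnected (univ : Set (Cube 1)) := isPreconnected_univ
  obtain ⟨z, -, hzz⟩ := hp.intermediate_value₂ (a := fun _ => 0) (b := fun _ => 1)
    (mem_univ _) (mem_univ _) hFc.continuousOn hGc.continuousOn
    (by
      have e1 := (h1 fun _ => 0).2
      have e2 := (h1' fun _ => 0).2
      simp only [fa, ga, Set.Icc.coe_zero] at e1 e2
      rw [abs_lt] at e1 e2
      linarith)
    (by
      have e1 := (h1 fun _ => 1).2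
      have e2 := (h1' fun _ => 1).2
      simp only [fa, ga, Set.Icc.coe_one] at e1 e2
      rw [abs_lt] at e1 e2
      linarith)
  apply hfg z
  obtain ⟨s, hs⟩ := (h1 z).1
  obtain ⟨s', hs'⟩ := (h1' z).1
  rw [← hs, ← hs', hβα, hβα] at hzz
  rw [← hs, ← hs', Subtype.ext hzz]

/-- Points moved by a flow are `Z_2`-points. -/
theorem flow_zPoint {X : Type u} [MetricSpace X] [CompactSpace X] (hX : CompactAR X)
    (hH : HDD00 X) (φ : Flow ℝ X) {x : X} {t : ℝ} (h : φ t x ≠ x) : IsZPoint 2 x := by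
  obtain ⟨τ, S, hτ, hxS, he⟩ := exists_flow_box φ h
  have h0 : (0 : ℝ) ∈ Ioo (-τ) τ := by constructor <;> linarith
  have hz := product_zPoint hX hH he (a := ⟨x, hxS⟩) (b := ⟨0, h0⟩) ?_ ?_
  · simp only at hz
    rwa [φ.map_zero_apply] at hz
  · -- the section has no isolated point
    intro hopen
    refine no_open_arc hH hτ (α := fun s => φ (s : ℝ) x) ?_
    have h1 : IsOpenEmbedding (fun s : Ioo (-τ) τ => ((⟨x, hxS⟩ : S), s)) := by
      refine IsOpenEmbedding.of_continuous_injective_isOpenMap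
        (continuous_const.prodMk continuous_id) (fun s s' hs => congrArg Prod.snd hs) ?_
      intro O hO
      have h2 : (fun s : Ioo (-τ) τ => ((⟨x, hxS⟩ : S), s)) '' O = {(⟨x, hxS⟩ : S)} ×ˢ O := by
        rw [singleton_prod]
      rw [h2]
      exact hopen.prod hO
    exact he.comp h1
  · -- the interval has no isolated point
    intro hopen
    have h2 : IsOpen ({(0 : ℝ)} : Set ℝ) := by
      have h3 := isOpen_Ioo.isOpenMap_subtype_val (X := ℝ) (s := Ioo (-τ) τ) _ hopen
      rwa [image_singleton] at h3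
    exact not_isOpen_singleton (0 : ℝ) h2

end Pool.Agent.H72.Zp
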